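import Pool.Agent.H593R3.DST.B2
import Pool.Agent.H620R2.Gauge.S
import Pool.Agent.H620R2.GaugeR.R2

/-!
# World A: the oracle defined by the data
-/

namespace Pool.Agent.H593R3.DST

open Pool.Agent.NPC Pool.Agent.H622R2 Pool.Agent.H620R2.Gauge Pool.Agent.H620R2.Gauge.CC
  Pool.Agent.H877R3.Join

/-- the data: a set of strings and a partial assignment of keys to strings -/
abbrev Dat : Type := List Bool → Bool × Option (ℕ × List Bool)

/-- where the bits of the code of a key are found -/
def locT (R : ℕ → Polynomial ℕ) (e : ℕ) (y : List Bool) (j : ℕ) : List Bool :=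
  false :: false :: pairBits (code R e y) (bits j)

/-- where the witnesses for a code are found -/
def locZ (u w : List Bool) : List Bool := false :: true :: pairBits u w

theorem locT_inj {R : ℕ → Polynomial ℕ} {e e' : ℕ} {y y' : List Bool} {j j' : ℕ}
    (h : locT R e y j = locT R e' y' j') : e = e' ∧ y = y' ∧ j = j' := by
  unfold locT at h
  rw [List.cons.injEq, List.cons.injEq] at h
  obtain ⟨h1, h2⟩ := pairBits_inj h.2.2
  obtain ⟨h3, h4⟩ := code_inj R h1
  refine ⟨h3, h4, ?_⟩
  have h5 := congrArg (unbits ℕ) h2
  rw [unbits_bits, unbits_bits, Option.some.injEq] at h5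
  exact h5

theorem locZ_inj {u w u' w' : List Bool} (h : locZ u w = locZ u' w') : u = u' ∧ w = w' := by
  unfold locZ at h
  rw [List.cons.injEq, List.cons.injEq] at h
  exact pairBits_inj h.2.2

theorem locT_ne_locZ {R : ℕ → Polynomial ℕ} {e : ℕ} {y : List Bool} {j : ℕ} {u w : List Bool} :
    locT R e y j ≠ locZ u w := by
  intro h
  simp [locT, locZ] at h

theorem length_locZ (u w : List Bool) : (locZ u w).length = 2 * u.length + w.length + 3 := by
  unfold locZ
  rw [List.length_cons, List.length_cons, Pool.Agent.H620R2.Gauge.length_pairBits]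
  ring

theorem lt_length_locT (R : ℕ → Polynomial ℕ) (e : ℕ) (y : List Bool) (j : ℕ) :
    (R e).eval y.length + 1 < (locT R e y j).length := by
  have h := lt_length_code R e y
  unfold locT
  rw [List.length_cons, List.length_cons, Pool.Agent.H620R2.Gauge.length_pairBits]
  omega

/-- the string `u` is the code of the key -/
def Special (S : ℕ → List Bool → ℕ) (X : Dat) (e : ℕ) (y u : List Bool) : Prop :=
  u.length = S e y + 1 ∧ u.head? = some true ∧ (X u).2 = some (e, y)

open Classical in
/-- the code of the key -/
noncomputable def codeOf (S : ℕ → List Bool → ℕ) (X : Dat) (e : ℕ) (y : List Bool) (b : Bool) :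
    List Bool :=
  if h : ∃ u, Special S X e y u then h.choose else false :: List.replicate (S e y) b

theorem length_codeOf (S : ℕ → List Bool → ℕ) (X : Dat) (e : ℕ) (y : List Bool) (b : Bool) :
    (codeOf S X e y b).length = S e y + 1 := by
  unfold codeOf
  split_ifs with h
  · exact h.choose_spec.1
  · simp

open Classical in
/-- the value of the oracle at `v`, if the oracle `A` is used for the shorter strings -/
noncomputable def body (R : ℕ → Polynomial ℕ) (S : ℕ → List Bool → ℕ)
    (W : ℕ → List Bool → Oracle → Prop) (X : Dat) (A : Oracle) (v : List Bool) : Bool :=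
  decide (
    (∃ e y j, v = locT R e y j ∧ j ≤ S e y ∧
      (codeOf S X e y (decide (W e y A))).getD j false = true) ∨
    (∃ u w, v = locZ u w ∧ w.length = u.length ∧ (X v).1 = true ∧
      ∃ e y, Special S X e y u ∧ W e y A) ∨
    (v.head? = some true ∧ (X v).1 = true))

/-- the oracle -/
noncomputable def PhiA (R : ℕ → Polynomial ℕ) (S : ℕ → List Bool → ℕ)
    (W : ℕ → List Bool → Oracle → Prop) (X : Dat) (v : List Bool) : Bool :=
  body R S W X (fun z => if _hz : z.length < v.length then PhiA R S W X z else false) v
termination_by v.length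

variable {R : ℕ → Polynomial ℕ} {S : ℕ → List Bool → ℕ} {W : ℕ → List Bool → Oracle → Prop}

theorem body_congr (hS : ∀ e y, S e y ≤ (R e).eval y.length)
    (hW : ∀ e y A A', (∀ z : List Bool, z.length ≤ S e y → A z = A' z) → (W e y A ↔ W e y A'))
    {X X' : Dat} {A A' : Oracle} {v : List Bool}
    (hX : ∀ z : List Bool, z.length ≤ v.length → X z = X' z)
    (hA : ∀ z : List Bool, z.length < v.length → A z = A' z) :
    body R S W X A v = body R S W X' A' v := by
  classical
  unfold body
  have h3 : ((v.head? = some true ∧ (X v).1 = true) ↔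
      (v.head? = some true ∧ (X' v).1 = true)) := by rw [hX v le_rfl]
  have h2 : ((∃ u w, v = locZ u w ∧ w.length = u.length ∧ (X v).1 = true ∧
      ∃ e y, Special S X e y u ∧ W e y A) ↔
      (∃ u w, v = locZ u w ∧ w.length = u.length ∧ (X' v).1 = true ∧
      ∃ e y, Special S X' e y u ∧ W e y A')) := by
    rw [hX v le_rfl]
    have key : ∀ u w, v = locZ u w → w.length = u.length →
        ((∃ e y, Special S X e y u ∧ W e y A) ↔ (∃ e y, Special S X' e y u ∧ W e y A')) := by
      intro u w hv hw
      have hl := length_locZ u w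
      rw [← hv] at hl
      have e1 : ∀ e y, Special S X e y u ↔ Special S X' e y u := by
        intro e y
        unfold Special
        rw [hX u (by omega)]
      constructor
      · rintro ⟨e, y, k1, k2⟩
        refine ⟨e, y, (e1 e y).1 k1, (hW e y A A' fun z hz => hA z ?_).1 k2⟩
        have := k1.1
        omega
      · rintro ⟨e, y, k1, k2⟩
        refine ⟨e, y, (e1 e y).2 k1, (hW e y A A' fun z hz => hA z ?_).2 k2⟩
        have := k1.1
        omega
    constructor
    · rintro ⟨u, w, k1, k2, k3, k4⟩
      exact ⟨u, w, k1, k2, k3, (key u w k1 k2).1 k4⟩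
    · rintro ⟨u, w, k1, k2, k3, k4⟩
      exact ⟨u, w, k1, k2, k3, (key u w k1 k2).2 k4⟩
  have h1 : ((∃ e y j, v = locT R e y j ∧ j ≤ S e y ∧
      (codeOf S X e y (decide (W e y A))).getD j false = true) ↔
      (∃ e y j, v = locT R e y j ∧ j ≤ S e y ∧
      (codeOf S X' e y (decide (W e y A'))).getD j false = true)) := by
    have key : ∀ e y j, v = locT R e y j →
        codeOf S X e y (decide (W e y A)) = codeOf S X' e y (decide (W e y A')) := by
      intro e y j hv
      have hl := lt_length_locT R e y j
      rw [← hv] at hl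
      have hs := hS e y
      have e1 : Special S X e y = Special S X' e y := by
        funext u
        unfold Special
        by_cases hu : u.length = S e y + 1
        · rw [hX u (by omega)]
        · simp [hu]
      have e2 : (W e y A ↔ W e y A') := hW e y A A' fun z hz => hA z (by omega)
      unfold codeOf
      rw [e1]
      simp only [e2]
    constructor
    · rintro ⟨e, y, j, k1, k2, k3⟩
      exact ⟨e, y, j, k1, k2, by rw [← key e y j k1]; exact k3⟩
    · rintro ⟨e, y, j, k1, k2, k3⟩
      exact ⟨e, y, j, k1, k2, by rw [key e y j k1]; exact k3⟩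
  exact decide_eq_decide.2 (or_congr h1 (or_congr h2 h3))

theorem PhiA_body (hS : ∀ e y, S e y ≤ (R e).eval y.length)
    (hW : ∀ e y A A', (∀ z : List Bool, z.length ≤ S e y → A z = A' z) → (W e y A ↔ W e y A'))
    (X : Dat) (v : List Bool) : PhiA R S W X v = body R S W X (PhiA R S W X) v := by
  rw [PhiA]
  exact body_congr hS hW (fun _ _ => rfl) fun z hz => dif_pos hz

theorem PhiA_local (hS : ∀ e y, S e y ≤ (R e).eval y.length)
    (hW : ∀ e y A A', (∀ z : List Bool, z.length ≤ S e y → A z = A' z) → (W e y A ↔ W e y A'))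
    {X X' : Dat} {n : ℕ} (h : ∀ z : List Bool, z.length ≤ n → X z = X' z) :
    ∀ (m : ℕ) (v : List Bool), v.length ≤ m → v.length ≤ n →
      PhiA R S W X v = PhiA R S W X' v := by
  intro m
  induction m with
  | zero =>
    intro v hm hn
    rw [PhiA_body hS hW, PhiA_body hS hW]
    exact body_congr hS hW (fun z hz => h z (by omega)) fun z hz => by omega
  | succ m ih =>
    intro v hm hn
    rw [PhiA_body hS hW, PhiA_body hS hW]
    exact body_congr hS hW (fun z hz => h z (by omega)) fun z hz => ih z (by omega) (by omega)

open Classical in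
theorem body_locT (X : Dat) (A : Oracle) (e : ℕ) (y : List Bool) (j : ℕ) (hj : j ≤ S e y) :
    body R S W X A (locT R e y j) = (codeOf S X e y (decide (W e y A))).getD j false := by
  unfold body
  rw [Bool.eq_iff_iff, decide_eq_true_iff]
  constructor
  · rintro (⟨e', y', j', h1, _, h3⟩ | ⟨u, w, h1, _⟩ | ⟨h1, _⟩)
    · obtain ⟨rfl, rfl, rfl⟩ := locT_inj h1
      exact h3
    · exact absurd h1 locT_ne_locZ
    · simp [locT] at h1
  · intro h
    exact Or.inl ⟨e, y, j, rfl, hj, h⟩

theorem body_locZ (X : Dat) (A : Oracle) (u w : List Bool) (hw : w.length = u.length) :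
    body R S W X A (locZ u w) = true ↔ (X (locZ u w)).1 = true ∧
      ∃ e y, Special S X e y u ∧ W e y A := by
  classical
  unfold body
  rw [decide_eq_true_iff]
  constructor
  · rintro (⟨e', y', j', h1, _, h3⟩ | ⟨u', w', h1, _, h3, h4⟩ | ⟨h1, _⟩)
    · exact absurd h1.symm locT_ne_locZ
    · obtain ⟨rfl, rfl⟩ := locZ_inj h1
      exact ⟨h3, h4⟩
    · simp [locZ] at h1
  · rintro ⟨h1, h2⟩
    exact Or.inr (Or.inl ⟨u, w, rfl, hw, h1, h2⟩)

theorem body_true (X : Dat) (A : Oracle) (v : List Bool) :
    body R S W X A (true :: v) = (X (true :: v)).1 := by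
  classical
  unfold body
  rw [Bool.eq_iff_iff, decide_eq_true_iff]
  constructor
  · rintro (⟨e', y', j', h1, _, h3⟩ | ⟨u', w', h1, _, h3, h4⟩ | ⟨_, h1⟩)
    · simp [locT] at h1
    · simp [locZ] at h1
    · exact h1
  · intro h
    exact Or.inr (Or.inr ⟨rfl, h⟩)

/-! ### Adaptive choice of the keys -/

theorem adaptive {K : Type} (M : Alg) (x : List Bool) (L : ℕ)
    (hL : ∀ a : List Bool, a.length ≤ M.p.eval x.length → (M.D (pairBits x a)).length ≤ L)
    (G : List K → Oracle) (key : List Bool → Option K)
    (hG : ∀ (l l' : List K) (v : List Bool), l <+: l' → (∀ κ, key v = some κ → κ ∈ l) →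
      G l' v = G l v) :
    ∀ (n : ℕ) (a : List Bool) (l : List K), a.length + n ≤ M.p.eval x.length →
      ∃ l' : List K, l <+: l' ∧ l'.length ≤ l.length + n ∧
        ∃ Q : Finset (List Bool), Q.card ≤ n ∧ (∀ q ∈ Q, q.length ≤ L) ∧
          (∀ q ∈ Q, ∀ κ, key q = some κ → κ ∈ l') ∧
          ∀ A' : Oracle, (∀ q ∈ Q, A' q = G l' q) → M.run A' x n a = M.run (G l') x n a := by
  classical
  intro n
  induction n with
  | zero =>
    intro a l _
    exact ⟨l, List.prefix_rfl, le_rfl, ∅, by simp, by simp, by simp, fun A' _ => rfl⟩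
  | succ n ih =>
    intro a l ha
    have hD := hL a (by omega)
    rcases hq : M.D (pairBits x a) with _ | ⟨c, q⟩
    · exact ⟨l, List.prefix_rfl, by omega, ∅, by simp, by simp, by simp,
        fun A' _ => by simp only [Alg.run, hq]⟩
    · cases c with
      | true => exact ⟨l, List.prefix_rfl, by omega, ∅, by simp, by simp, by simp,
          fun A' _ => by simp only [Alg.run, hq]⟩
      | false =>
        set l1 : List K := l ++ (key q).toList with hl1
        have hl1len : l1.length ≤ l.length + 1 := by
          rw [hl1, List.length_append]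
          cases key q <;> simp
        have hl1key : ∀ κ, key q = some κ → κ ∈ l1 := by
          intro κ hκ
          rw [hl1, hκ]
          simp
        obtain ⟨l', h1, h2, Q, h3, h4, h5, h6⟩ := ih (a ++ [G l1 q]) l1 (by
          rw [List.length_append, List.length_singleton]; omega)
        have hGq : G l' q = G l1 q := hG l1 l' q h1 hl1key
        refine ⟨l', (List.prefix_append l _).trans h1, by omega, insert q Q,
          (Finset.card_insert_le _ _).trans (by omega), ?_, ?_, ?_⟩
        · intro r hr
          rcases Finset.mem_insert.1 hr with rfl | hr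
          · rw [hq, List.length_cons] at hD
            omega
          · exact h4 r hr
        · intro r hr κ hκ
          rcases Finset.mem_insert.1 hr with rfl | hr
          · exact h1.subset (hl1key κ hκ)
          · exact h5 r hr κ hκ
        · intro A' hA'
          simp only [Alg.run, hq]
          rw [hA' q (Finset.mem_insert_self _ _), hGq]
          exact h6 A' fun r hr => hA' r (Finset.mem_insert_of_mem hr)

end Pool.Agent.H593R3.DST
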