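import Pool.Agent.H593R3.DST.A1

/-!
# World A: one stage
-/

namespace Pool.Agent.H593R3.DST

open Pool.Agent.NPC Pool.Agent.H622R2 Pool.Agent.H620R2.Gauge Pool.Agent.H620R2.Gauge.CC
  Pool.Agent.H877R3.Join

/-- the invariant -/
def InvA (X : Dat) : Prop :=
  (∀ u : List Bool, ∃ w : List Bool, w.length = u.length ∧ (X (locZ u w)).1 = true) ∧
  ∀ n : ℕ, ∃ v0 : List Bool, v0.length = n + 1 ∧ ∀ v : List Bool, v.length = n + 1 →
    ((X (true :: v)).1 = true ↔ v = v0)

/-- the code number `i` of length `s + 1` -/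
def sc (i s : ℕ) : List Bool := true :: bitsOf s i

theorem length_sc (i s : ℕ) : (sc i s).length = s + 1 := by
  simp [sc, length_bitsOf]

open Classical in
/-- the key needed for an answer -/
noncomputable def keyA (R : ℕ → Polynomial ℕ) (S : ℕ → List Bool → ℕ) (t : ℕ) (v : List Bool) :
    Option (ℕ × List Bool) :=
  if h : ∃ p : ℕ × List Bool, ∃ j : ℕ, v = locT R p.1 p.2 j ∧ t ≤ S p.1 p.2 then some h.choose
  else none

theorem keyA_locT {R : ℕ → Polynomial ℕ} {S : ℕ → List Bool → ℕ} {t e : ℕ} {y : List Bool}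
    {j : ℕ} (h : t ≤ S e y) : keyA R S t (locT R e y j) = some (e, y) := by
  have h1 : ∃ p : ℕ × List Bool, ∃ j' : ℕ, locT R e y j = locT R p.1 p.2 j' ∧ t ≤ S p.1 p.2 :=
    ⟨(e, y), j, rfl, h⟩
  unfold keyA
  rw [dif_pos h1]
  obtain ⟨j', h2, _⟩ := h1.choose_spec
  obtain ⟨h3, h4, _⟩ := locT_inj h2
  rw [Option.some.injEq]
  exact Prod.ext h3.symm h4.symm

open Classical in
/-- the presumed code -/
noncomputable def cdA (S : ℕ → List Bool → ℕ) (W : ℕ → List Bool → Oracle → Prop) (t : ℕ)
    (X : Dat) (A : Oracle) (l : List (ℕ × List Bool)) (e : ℕ) (y : List Bool) : List Bool :=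
  if S e y < t then codeOf S X e y (decide (W e y A)) else
    if (e, y) ∈ l then sc (l.idxOf (e, y)) (S e y) else []

open Classical in
/-- the presumed oracle -/
noncomputable def GA (R : ℕ → Polynomial ℕ) (S : ℕ → List Bool → ℕ)
    (W : ℕ → List Bool → Oracle → Prop) (t : ℕ) (X : Dat) (A : Oracle)
    (l : List (ℕ × List Bool)) : Oracle := fun v =>
  if v.length ≤ t then A v else
    decide (∃ e y j, v = locT R e y j ∧ j ≤ S e y ∧ (cdA S W t X A l e y).getD j false = true)

theorem GA_prefix {R : ℕ → Polynomial ℕ} {S : ℕ → List Bool → ℕ}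
    {W : ℕ → List Bool → Oracle → Prop} {t : ℕ} {X : Dat} {A : Oracle}
    (l l' : List (ℕ × List Bool)) (v : List Bool) (h : l <+: l')
    (hk : ∀ κ, keyA R S t v = some κ → κ ∈ l) :
    GA R S W t X A l' v = GA R S W t X A l v := by
  classical
  unfold GA
  split_ifs with hv
  · rfl
  · have key : ∀ e y j, v = locT R e y j → cdA S W t X A l' e y = cdA S W t X A l e y := by
      intro e y j hvj
      unfold cdA
      by_cases h1 : S e y < t
      · rw [if_pos h1, if_pos h1]
      · have h2 : (e, y) ∈ l := hk _ (by rw [hvj]; exact keyA_locT (not_lt.1 h1))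
        have h3 : (e, y) ∈ l' := h.subset h2
        rw [if_neg h1, if_neg h1, if_pos h2, if_pos h3]
        obtain ⟨l2, rfl⟩ := h
        rw [List.idxOf_append_of_mem h2]
    apply decide_eq_decide.2
    constructor
    · rintro ⟨e, y, j, k1, k2, k3⟩
      exact ⟨e, y, j, k1, k2, by rw [← key e y j k1]; exact k3⟩
    · rintro ⟨e, y, j, k1, k2, k3⟩
      exact ⟨e, y, j, k1, k2, by rw [key e y j k1]; exact k3⟩

/-- the test language -/
def ULang (c : Bool) (O : Oracle) : Set (List Bool) :=
  {x | ∃ y : List Bool, y.length = x.length ∧ O (true :: c :: y) = true}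

open Classical in
/-- the extension -/
noncomputable def extA (S : ℕ → List Bool → ℕ) (t : ℕ) (Q : Finset (List Bool))
    (l : List (ℕ × List Bool)) (ch : ℕ → List Bool) (X : Dat) : Dat := fun v =>
  if v.length ≤ t then X v else
    (decide (v ∉ Q ∧ ((∃ u w, v = locZ u w) ∨ ∃ n, v = true :: ch n)),
      if h : ∃ κ : ℕ × List Bool, κ ∈ l ∧ t ≤ S κ.1 κ.2 ∧ v = sc (l.idxOf κ) (S κ.1 κ.2) then
        some h.choose else none)

theorem extA_small {S : ℕ → List Bool → ℕ} {t : ℕ} {Q : Finset (List Bool)}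
    {l : List (ℕ × List Bool)} {ch : ℕ → List Bool} {X : Dat} {v : List Bool}
    (h : v.length ≤ t) : extA S t Q l ch X v = X v := by
  unfold extA
  rw [if_pos h]

theorem extA_fst {S : ℕ → List Bool → ℕ} {t : ℕ} {Q : Finset (List Bool)}
    {l : List (ℕ × List Bool)} {ch : ℕ → List Bool} {X : Dat} {v : List Bool}
    (h : t < v.length) : (extA S t Q l ch X v).1 = true ↔
      v ∉ Q ∧ ((∃ u w, v = locZ u w) ∨ ∃ n, v = true :: ch n) := by
  classical
  unfold extA
  rw [if_neg (by omega)]
  exact decide_eq_true_iff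

/-- the special codes of the extension -/
theorem special_extA {S : ℕ → List Bool → ℕ} {t : ℕ} {Q : Finset (List Bool)}
    {l : List (ℕ × List Bool)} {ch : ℕ → List Bool} {X : Dat} (hl : l.length ≤ 2 ^ t)
    {e : ℕ} {y : List Bool} (he : (e, y) ∈ l) (ht : t ≤ S e y) (u : List Bool) :
    Special S (extA S t Q l ch X) e y u ↔ u = sc (l.idxOf (e, y)) (S e y) := by
  classical
  constructor
  · rintro ⟨h1, _, h3⟩
    unfold extA at h3
    rw [if_neg (by omega)] at h3
    split_ifs at h3 with h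
    rw [Option.some.injEq] at h3
    have h4 := h.choose_spec
    rw [h3] at h4
    exact h4.2.2
  · rintro rfl
    refine ⟨length_sc _ _, rfl, ?_⟩
    have h : ∃ κ : ℕ × List Bool, κ ∈ l ∧ t ≤ S κ.1 κ.2 ∧
        sc (l.idxOf (e, y)) (S e y) = sc (l.idxOf κ) (S κ.1 κ.2) := ⟨(e, y), he, ht, rfl⟩
    unfold extA
    rw [if_neg (by rw [length_sc]; omega)]
    rw [dif_pos h]
    change some h.choose = some (e, y)
    obtain ⟨h1, h2, h3⟩ := h.choose_spec
    have hlen := congrArg List.length h3
    rw [length_sc, length_sc] at hlen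
    have hS : S h.choose.1 h.choose.2 = S e y := by omega
    rw [hS] at h3
    unfold sc at h3
    rw [List.cons.injEq] at h3
    have hb : ∀ κ ∈ l, l.idxOf κ < 2 ^ S e y := by
      intro κ hκ
      have h5 := List.idxOf_lt_length_iff.2 hκ
      have h6 : 2 ^ t ≤ 2 ^ S e y := Nat.pow_le_pow_right (by norm_num) ht
      omega
    have h4 := bitsOf_inj (hb _ he) (hb _ h1) h3.2
    rw [Option.some.injEq]
    exact ((List.idxOf_inj he).1 h4).symm

end Pool.Agent.H593R3.DST
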