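import Pool.Agent.H593R3.DST.A2

/-!
# World A: one stage
-/

namespace Pool.Agent.H593R3.DST

open Pool.Agent.NPC Pool.Agent.H622R2 Pool.Agent.H620R2.Gauge Pool.Agent.H620R2.Gauge.CC
  Pool.Agent.H877R3.Join

variable {R : ℕ → Polynomial ℕ} {S : ℕ → List Bool → ℕ} {W : ℕ → List Bool → Oracle → Prop}

/-- the presumed answers are the true answers -/
theorem PhiA_extA (hS : ∀ e y, S e y ≤ (R e).eval y.length)
    (hW : ∀ e y A A', (∀ z : List Bool, z.length ≤ S e y → A z = A' z) → (W e y A ↔ W e y A'))
    {t : ℕ} {Q : Finset (List Bool)} {l : List (ℕ × List Bool)} {ch : ℕ → List Bool} {X : Dat}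
    (hl : l.length ≤ 2 ^ t) (hk : ∀ q ∈ Q, ∀ κ, keyA R S t q = some κ → κ ∈ l)
    {q : List Bool} (hq : q ∈ Q) :
    PhiA R S W (extA S t Q l ch X) q = GA R S W t X (PhiA R S W X) l q := by
  classical
  have hloc : ∀ v : List Bool, v.length ≤ t →
      PhiA R S W (extA S t Q l ch X) v = PhiA R S W X v := fun v hv =>
    PhiA_local hS hW (n := t) (fun z hz => extA_small hz) v.length v le_rfl hv
  unfold GA
  split_ifs with hqt
  · exact hloc q hqt
  · have hqt' : t < q.length := by omega
    have hcd : ∀ e y j, q = locT R e y j →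
        codeOf S (extA S t Q l ch X) e y (decide (W e y (PhiA R S W (extA S t Q l ch X)))) =
          cdA S W t X (PhiA R S W X) l e y := by
      intro e y j hqj
      unfold cdA
      by_cases h1 : S e y < t
      · rw [if_pos h1]
        have e1 : Special S (extA S t Q l ch X) e y = Special S X e y := by
          funext u
          unfold Special
          by_cases hu : u.length = S e y + 1
          · rw [extA_small (by omega)]
          · simp [hu]
        have e2 : (W e y (PhiA R S W (extA S t Q l ch X)) ↔ W e y (PhiA R S W X)) :=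
          hW e y _ _ fun z hz => hloc z (by omega)
        unfold codeOf
        rw [e1]
        simp only [e2]
      · have h2 : (e, y) ∈ l := hk q hq _ (by rw [hqj]; exact keyA_locT (not_lt.1 h1))
        rw [if_neg h1, if_pos h2]
        have h3 := special_extA (ch := ch) (Q := Q) (X := X) hl h2 (not_lt.1 h1)
        have h4 : ∃ u, Special S (extA S t Q l ch X) e y u := ⟨_, (h3 _).2 rfl⟩
        unfold codeOf
        rw [dif_pos h4]
        exact (h3 _).1 h4.choose_spec
    have hfst : ¬ (extA S t Q l ch X q).1 = true := fun h => ((extA_fst hqt').1 h).1 hq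
    rw [PhiA_body hS hW]
    unfold body
    apply decide_eq_decide.2
    constructor
    · rintro (⟨e, y, j, h1, h2, h3⟩ | ⟨u, w, _, _, h3, _⟩ | ⟨_, h3⟩)
      · exact ⟨e, y, j, h1, h2, by rw [← hcd e y j h1]; exact h3⟩
      · exact absurd h3 hfst
      · exact absurd h3 hfst
    · rintro ⟨e, y, j, h1, h2, h3⟩
      exact Or.inl ⟨e, y, j, h1, h2, by rw [hcd e y j h1]; exact h3⟩

theorem stageA (hS : ∀ e y, S e y ≤ (R e).eval y.length)
    (hW : ∀ e y A A', (∀ z : List Bool, z.length ≤ S e y → A z = A' z) → (W e y A ↔ W e y A'))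
    (X : Dat) (hX : InvA X) (M : Alg) (N : ℕ) :
    ∃ (X' : Dat) (N' : ℕ), N < N' ∧ (∀ z : List Bool, z.length < N → X' z = X z) ∧
      InvA X' ∧ ∀ X'' : Dat, (∀ z : List Bool, z.length < N' → X'' z = X' z) →
        ∃ x, ¬ (x ∈ ULang true (PhiA R S W X'') ↔
          M.out (PhiA R S W X'') x = some [true]) := by
  classical
  obtain ⟨b, hb⟩ := M.next_length
  set P : Polynomial ℕ := (M.p + Polynomial.C 1).comp
      (Polynomial.C 3 * Polynomial.X + Polynomial.C 3) with hP
  obtain ⟨k0, hk0⟩ := Filter.eventually_atTop.1 (poly_le P 1)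
  obtain ⟨k, hkN, hk⟩ : ∃ k, N ≤ k ∧ k0 ≤ k := ⟨max N k0, le_max_left _ _, le_max_right _ _⟩
  have hPk := hk0 k hk
  set t : ℕ := 3 * k + 3 with ht
  have hPk' : M.p.eval t + 1 ≤ 2 ^ k := by
    rw [one_mul, hP] at hPk
    simpa only [Polynomial.eval_add, Polynomial.eval_mul, Polynomial.eval_C, Polynomial.eval_X,
      Polynomial.eval_comp] using hPk
  have hkt : 2 ^ k ≤ 2 ^ t := Nat.pow_le_pow_right (by norm_num) (by omega)
  set x : List Bool := ones t with hx
  have hxl : x.length = t := length_ones t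
  obtain ⟨l, _, hl2, Q, hQ1, hQ2, hQ3, hQ4⟩ := adaptive M x (b.eval x.length) (hb x)
    (GA R S W t X (PhiA R S W X)) (keyA R S t) (fun l l' v h h' => GA_prefix l l' v h h')
    (M.p.eval x.length) [] [] (by simp)
  rw [hxl] at hQ1 hQ2 hl2
  rw [List.length_nil, zero_add] at hl2
  set c : Bool := !decide (M.out (GA R S W t X (PhiA R S W X) l) x = some [true]) with hc
  have hch : ∀ n : ℕ, ∃ v : List Bool, v.length = n + 1 ∧ (t < n + 2 → true :: v ∉ Q) ∧
      (n = t → ∃ y, v = c :: y) := by
    intro n
    by_cases h1 : n = t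
    · obtain ⟨y, hy, hyQ⟩ := exists_avoid (fun y => true :: c :: y)
        (fun y y' h => by simpa using h) n Q (by rw [h1]; omega)
      exact ⟨c :: y, by simp [hy], fun _ => hyQ, fun _ => ⟨y, rfl⟩⟩
    · by_cases h2 : t < n + 2
      · have h3 : 2 ^ k ≤ 2 ^ (n + 1) := Nat.pow_le_pow_right (by norm_num) (by omega)
        obtain ⟨v, hv, hvQ⟩ := exists_avoid (fun y => true :: y)
          (fun y y' h => by simpa using h) (n + 1) Q (by omega)
        exact ⟨v, hv, fun _ => hvQ, fun h => absurd h h1⟩
      · exact ⟨ones (n + 1), length_ones _, fun h => absurd h h2, fun h => absurd h h1⟩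
  choose ch hch1 hch2 hch3 using hch
  set X' : Dat := extA S t Q l ch X with hX'
  have hUA : ∀ n : ℕ, t < n + 2 → ∀ v : List Bool, v.length = n + 1 →
      ((X' (true :: v)).1 = true ↔ v = ch n) := by
    intro n hn v hv
    rw [hX', extA_fst (by rw [List.length_cons]; omega)]
    constructor
    · rintro ⟨_, ⟨u, w, h⟩ | ⟨n', h⟩⟩
      · simp [locZ] at h
      · rw [List.cons.injEq] at h
        have h1 := hch1 n'
        have h2 : n' = n := by
          rw [← h.2] at h1
          omega
        rw [h.2, h2]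
    · rintro rfl
      exact ⟨hch2 n hn, Or.inr ⟨n, rfl⟩⟩
  refine ⟨X', max (max (N + 1) (t + 3)) (b.eval t + 1), by omega,
    fun z hz => extA_small (by omega), ⟨?_, ?_⟩, ?_⟩
  · intro u
    by_cases h : 3 * u.length + 3 ≤ t
    · obtain ⟨w, hw1, hw2⟩ := hX.1 u
      refine ⟨w, hw1, ?_⟩
      rw [hX', extA_small (by rw [length_locZ]; omega)]
      exact hw2
    · have h3 : 2 ^ k ≤ 2 ^ u.length := Nat.pow_le_pow_right (by norm_num) (by omega)
      obtain ⟨w, hw, hwQ⟩ := exists_avoid (fun w => locZ u w)
        (fun w w' h => (locZ_inj h).2) u.length Q (by omega)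
      refine ⟨w, hw, ?_⟩
      rw [hX', extA_fst (by rw [length_locZ]; omega)]
      exact ⟨hwQ, Or.inl ⟨u, w, rfl⟩⟩
  · intro n
    by_cases h : t < n + 2
    · exact ⟨ch n, hch1 n, hUA n h⟩
    · obtain ⟨v0, h1, h2⟩ := hX.2 n
      refine ⟨v0, h1, fun v hv => ?_⟩
      rw [hX', extA_small (by rw [List.length_cons]; omega)]
      exact h2 v hv
  · intro X'' hX''
    refine ⟨x, ?_⟩
    have hout : M.out (PhiA R S W X'') x = M.out (GA R S W t X (PhiA R S W X) l) x := by
      apply hQ4
      intro q hq
      have hql := hQ2 q hq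
      rw [PhiA_local hS hW (n := q.length) (X' := X') (fun z hz => hX'' z (by omega)) q.length q
        le_rfl le_rfl]
      exact PhiA_extA hS hW (by omega) hQ3 hq
    have hU : x ∈ ULang true (PhiA R S W X'') ↔ c = true := by
      have e : ∀ y : List Bool, y.length = t → (PhiA R S W X'' (true :: true :: y) = true ↔
          true :: y = ch t) := by
        intro y hy
        rw [PhiA_body hS hW, body_true, hX'' _ (by simp only [List.length_cons]; omega)]
        exact hUA t (by omega) (true :: y) (by rw [List.length_cons, hy])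
      obtain ⟨y0, hy0⟩ := hch3 t rfl
      constructor
      · rintro ⟨y, hy, h⟩
        have h1 := (e y (by rw [hy, hxl])).1 h
        rw [hy0, List.cons.injEq] at h1
        exact h1.1.symm
      · intro hct
        rw [hct] at hy0
        have h1 := hch1 t
        rw [hy0, List.length_cons] at h1
        exact ⟨y0, by omega, (e y0 (by omega)).2 hy0.symm⟩
    rw [hU, hout, hc]
    simp only [Bool.not_eq_true', decide_eq_false_iff_not]
    tauto

end Pool.Agent.H593R3.DST
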