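import Pool.Agent.H593R3.DST.Defs
import Pool.Agent.H620R2.GaugeR.R1
import Pool.Agent.H620R2.GaugeR.Seq
import Pool.Agent.H620R2.Gauge.A1

/-!
# Applying a function to the elements of a sequence, relative to an oracle
-/

namespace Pool.Agent.H593R3.DST

open Pool.Agent.NPC Pool.Agent.H622R2 Pool.Agent.H620R2.Gauge Pool.Agent.H877R3.Join

theorem ustep_len (s : List Bool × List Bool × Bool) :
    (ustep s).1.length + (ustep s).2.1.length ≤ s.1.length + s.2.1.length := by
  obtain ⟨a, l, b⟩ := s
  unfold ustep
  cases b with
  | true => simp
  | false =>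
    match l with
    | [] => simp
    | true :: [] => simp
    | true :: c :: l' => simp; omega
    | false :: l' => simp

theorem unpair_len (y : List Bool) : (unpair y).1.length + (unpair y).2.length ≤ y.length := by
  have h : ∀ (k : ℕ) (s : List Bool × List Bool × Bool),
      (ustep^[k] s).1.length + (ustep^[k] s).2.1.length ≤ s.1.length + s.2.1.length := by
    intro k
    induction k with
    | zero => intro s; simp
    | succ k ih =>
      intro s
      rw [Function.iterate_succ_apply]
      exact (ih _).trans (ustep_len s)
  have h1 := h y.length ([], y, false)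
  unfold unpair
  simpa using h1

/-- one step -/
def mstep (f : List Bool → List Bool) (s : List Bool) : List Bool :=
  if (unpair s).2 = [] then s else
    pairBits ((unpair s).1 ++ pairBits (f (unpair (unpair s).2).1) []) (unpair (unpair s).2).2

theorem IsFP.mstep {A : Oracle} {f : List Bool → List Bool} (hf : IsFP A f) :
    IsFP A (mstep f) := by
  have hφ : Poly (fun p : List Bool × List Bool => (unpair (unpair p.1).2).1) :=
    Poly.fst (poly_unpair.comp (Poly.snd (poly_unpair.comp (Poly.fst Poly.id))))
  have h1 : Poly (fun p : List Bool × List Bool × List Bool => unpair p.1) :=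
    poly_unpair.comp (Poly.fst Poly.id)
  have hψ : Poly (fun p : List Bool × List Bool × List Bool =>
      if (unpair p.1).2 = [] then p.1 else
        pairBits ((unpair p.1).1 ++ pairBits p.2.2 []) (unpair (unpair p.1).2).2) :=
    Poly.ite (Poly.decide_eq (Poly.snd h1) (NPC.Poly.const _)) (Poly.fst Poly.id)
      (poly_pairBits (Poly.append (Poly.fst h1) (poly_pairBits (Poly.snd (Poly.snd Poly.id))
        (NPC.Poly.const _))) (Poly.snd (poly_unpair.comp (Poly.snd h1))))
  exact IsFP.seq (IsFP.of_poly (F := fun x => x) Poly.id) hf hφ hψ

theorem enc_append (xs ys : List (List Bool)) : enc (xs ++ ys) = enc xs ++ enc ys := by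
  induction xs with
  | nil => rfl
  | cons x xs ih =>
    rw [List.cons_append, enc, enc, ih]
    simp [pairBits]

theorem enc_ne_nil (x : List Bool) (xs : List (List Bool)) : enc (x :: xs) ≠ [] := by
  simp [enc, pairBits]

theorem length_le_enc (xs : List (List Bool)) : xs.length ≤ (enc xs).length := by
  induction xs with
  | nil => simp
  | cons x xs ih =>
    rw [enc, Pool.Agent.H620R2.Gauge.length_pairBits, List.length_cons]
    omega

theorem mstep_iter (f : List Bool → List Bool) : ∀ (i : ℕ) (acc xs : List (List Bool)),
    xs.length ≤ i → (mstep f)^[i] (pairBits (enc acc) (enc xs)) =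
      pairBits (enc (acc ++ xs.map f)) [] := by
  intro i
  induction i with
  | zero =>
    intro acc xs h
    have : xs = [] := List.length_eq_zero_iff.1 (by omega)
    subst this
    simp [enc]
  | succ i ih =>
    intro acc xs h
    rw [Function.iterate_succ_apply]
    cases xs with
    | nil =>
      have e : mstep f (pairBits (enc acc) (enc [])) = pairBits (enc acc) (enc []) := by
        unfold mstep
        rw [unpair_pairBits]
        rfl
      rw [e]
      exact ih acc [] (by simp)
    | cons x xs =>
      have e : mstep f (pairBits (enc acc) (enc (x :: xs))) =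
          pairBits (enc (acc ++ [f x])) (enc xs) := by
        unfold mstep
        simp only [unpair_pairBits]
        rw [if_neg (enc_ne_nil x xs), enc, unpair_pairBits, enc_append]
        rfl
      rw [e, ih (acc ++ [f x]) xs (by simpa using h)]
      simp

theorem exists_map {A : Oracle} {f : List Bool → List Bool} (hf : IsFP A f) :
    ∃ G : List Bool → List Bool, IsFP A G ∧ ∀ xs, G (enc xs) = enc (xs.map f) := by
  have hf' := hf
  obtain ⟨M, hM⟩ := hf'
  obtain ⟨c, hc⟩ := M.out_length
  have hlen : ∀ (x : List Bool) (i : ℕ), ∃ o r, (mstep f)^[i] (pairBits [] x) = pairBits o r ∧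
      r.length ≤ x.length ∧ o.length ≤ i * (2 * c.eval x.length + 1) := by
    intro x i
    induction i with
    | zero => exact ⟨[], x, rfl, le_rfl, by simp⟩
    | succ i ih =>
      obtain ⟨o, r, h1, h2, h3⟩ := ih
      rw [Function.iterate_succ_apply', h1]
      have e3 : (i + 1) * (2 * c.eval x.length + 1) =
          i * (2 * c.eval x.length + 1) + (2 * c.eval x.length + 1) := by ring
      by_cases hr : r = []
      · refine ⟨o, r, ?_, h2, by omega⟩
        unfold mstep
        rw [unpair_pairBits, if_pos hr]
      · refine ⟨o ++ pairBits (f (unpair r).1) [], (unpair r).2, ?_, ?_, ?_⟩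
        · unfold mstep
          rw [unpair_pairBits, if_neg hr]
        · have := unpair_len r
          omega
        · have h4 := unpair_len r
          have h5 := hc A (unpair r).1 _ (hM (unpair r).1)
          have h6 : c.eval (unpair r).1.length ≤ c.eval x.length := eval_mono _ (by omega)
          rw [List.length_append, Pool.Agent.H620R2.Gauge.length_pairBits, List.length_nil]
          omega
  have hS := IsFP.mstep hf
  have hL := IsFP.loop hS (g := fun x => pairBits [] x)
    (poly_pairBits (NPC.Poly.const _) Poly.id) Polynomial.X
    (Polynomial.C 2 * (Polynomial.X * (Polynomial.C 2 * c + Polynomial.C 1)) + Polynomial.C 1 +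
      Polynomial.X) (by
      intro x i hi
      rw [Polynomial.eval_X] at hi
      obtain ⟨o, r, h1, h2, h3⟩ := hlen x i
      rw [h1, Pool.Agent.H620R2.Gauge.length_pairBits]
      simp only [Polynomial.eval_add, Polynomial.eval_mul, Polynomial.eval_C, Polynomial.eval_X]
      have h4 : i * (2 * c.eval x.length + 1) ≤ x.length * (2 * c.eval x.length + 1) :=
        Nat.mul_le_mul_right _ hi
      omega)
  have hR := IsFP.comp (IsFP.of_poly (F := fun s => (unpair s).1) (Poly.fst poly_unpair)) hL
  refine ⟨_, hR, fun xs => ?_⟩
  have h1 := mstep_iter f (Polynomial.eval (enc xs).length Polynomial.X) [] xs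
    (by rw [Polynomial.eval_X]; exact length_le_enc xs)
  simp only [enc, List.nil_append] at h1
  simp only [h1, unpair_pairBits]

end Pool.Agent.H593R3.DST
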