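import Pool.Agent.H593R3.DST.B2
import Pool.Agent.H593R3.DST.Map

/-!
# World B
-/

namespace Pool.Agent.H593R3.DST

open Pool.Agent.NPC Pool.Agent.H622R2 Pool.Agent.H620R2.Gauge Pool.Agent.H620R2.Gauge.CC
  Pool.Agent.H877R3.Join

/-- the test language -/
def TLang (O : Oracle) : Set (List Bool) :=
  {x | ∃ y : List Bool, y.length = x.length ∧ O (false :: (x ++ y)) = true}

/-- the question -/
def tQ (y : List Bool) : List (List Bool) := [false :: ((unpair y).1 ++ (unpair y).2)]

/-- the decision -/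
def tH (t : List Bool × List Bool) : List Bool :=
  if (unpair t.1).2.length = (unpair t.1).1.length then
    if t.2 = [true] then [true] else []
  else []

theorem poly_tQ : Poly tQ := by
  have hw : Poly (fun y => (unpair y).2) := Poly.snd poly_unpair
  have hx : Poly (fun y => (unpair y).1) := Poly.fst poly_unpair
  exact Poly.cons (Poly.cons (NPC.Poly.const _) (Poly.append hx hw)) (NPC.Poly.const [])

theorem poly_tH : Poly tH := by
  have hu : Poly (fun t : List Bool × List Bool => unpair t.1) :=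
    poly_unpair.comp (Poly.fst Poly.id)
  exact Poly.ite (Poly.decide_eq (Poly.length (Poly.snd hu)) (Poly.length (Poly.fst hu)))
    (Poly.ite (Poly.decide_eq (Poly.snd Poly.id) (NPC.Poly.const _)) (NPC.Poly.const _)
      (NPC.Poly.const _)) (NPC.Poly.const _)

theorem TLang_isNP (O : Oracle) : IsNP O (TLang O) := by
  refine ⟨_, Polynomial.X, IsFP.tt (A := O) poly_tQ poly_tH, fun x => ?_⟩
  have h2 : ∀ w : List Bool, tH (pairBits x w, (tQ (pairBits x w)).map O) = [true] ↔
      w.length = x.length ∧ O (false :: (x ++ w)) = true := by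
    intro w
    have e1 : tH (pairBits x w, (tQ (pairBits x w)).map O) =
        if w.length = x.length then
          if ([O (false :: (x ++ w))] : List Bool) = [true] then [true] else [] else [] := by
      simp only [tH, tQ, unpair_pairBits, List.map_cons, List.map_nil]
    rw [e1]
    split_ifs with h3 h4
    · simpa [h3] using h4
    · simpa [h3] using h4
    · simp [h3]
  constructor
  · rintro ⟨y, h3, h4⟩
    exact ⟨y, by rw [Polynomial.eval_X]; exact h3.le, (h2 y).2 ⟨h3, h4⟩⟩
  · rintro ⟨w, _, hw⟩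
    exact ⟨w, (h2 w).1 hw⟩

/-- composition of a reduction and a compression -/
theorem compose {O : Oracle} {f F : List Bool → List Bool} (hf : IsFP O f) (hF : IsFP O F)
    (q : Polynomial ℕ) (P : List (List Bool) → Prop)
    (h : ∀ (xs : List (List Bool)) (n : ℕ), xs ≠ [] → (∀ x ∈ xs, x.length ≤ n) →
      (F (enc xs)).length ≤ q.eval n ∧ P xs) :
    ∃ (M : Alg) (q' : Polynomial ℕ), ∀ (xs : List (List Bool)) (n : ℕ), xs ≠ [] →
      (∀ x ∈ xs, x.length ≤ n) → M.out O (enc xs) = some (F (enc (xs.map f))) ∧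
        (F (enc (xs.map f))).length ≤ q'.eval n ∧ P (xs.map f) := by
  obtain ⟨G, hG1, hG2⟩ := exists_map hf
  obtain ⟨M0, hM0⟩ := hf
  obtain ⟨c, hc⟩ := M0.out_length
  obtain ⟨M, hM⟩ := IsFP.comp hF hG1
  refine ⟨M, q.comp c, fun xs n h1 h2 => ?_⟩
  have h3 := h (xs.map f) (c.eval n) (by simpa using h1) (by
    intro y hy
    obtain ⟨x, hx, rfl⟩ := List.mem_map.1 hy
    exact (hc O x _ (hM0 x)).trans (eval_mono _ (h2 x hx)))
  refine ⟨by rw [hM, ← hG2], by rw [Polynomial.eval_comp]; exact h3.1, h3.2⟩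

/-- the complete language -/
def KLang (O : Oracle) : Set (List Bool) :=
  {v | ∃ w : List Bool, w.length = (unpair v).2.length ∧
    O (true :: pairBits (unpair v).1 w) = true}

/-- the question -/
def kQ (y : List Bool) : List (List Bool) :=
  [true :: pairBits (unpair (unpair y).1).1 (unpair y).2]

/-- the decision -/
def kH (t : List Bool × List Bool) : List Bool :=
  if (unpair t.1).2.length = (unpair (unpair t.1).1).2.length then
    if t.2 = [true] then [true] else []
  else []

theorem poly_kQ : Poly kQ := by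
  have hw : Poly (fun y => (unpair y).2) := Poly.snd poly_unpair
  have hx : Poly (fun y => (unpair y).1) := Poly.fst poly_unpair
  exact Poly.cons (Poly.cons (NPC.Poly.const _) (poly_pairBits
    (Poly.fst (poly_unpair.comp hx)) hw)) (NPC.Poly.const [])

theorem poly_kH : Poly kH := by
  have hu : Poly (fun t : List Bool × List Bool => unpair t.1) :=
    poly_unpair.comp (Poly.fst Poly.id)
  exact Poly.ite (Poly.decide_eq (Poly.length (Poly.snd hu))
    (Poly.length (Poly.snd (poly_unpair.comp (Poly.fst hu)))))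
    (Poly.ite (Poly.decide_eq (Poly.snd Poly.id) (NPC.Poly.const _)) (NPC.Poly.const _)
      (NPC.Poly.const _)) (NPC.Poly.const _)

theorem KLang_isNP (O : Oracle) : IsNP O (KLang O) := by
  refine ⟨_, Polynomial.X, IsFP.tt (A := O) poly_kQ poly_kH, fun v => ?_⟩
  have h2 : ∀ w : List Bool, kH (pairBits v w, (kQ (pairBits v w)).map O) = [true] ↔
      w.length = (unpair v).2.length ∧ O (true :: pairBits (unpair v).1 w) = true := by
    intro w
    have e1 : kH (pairBits v w, (kQ (pairBits v w)).map O) =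
        if w.length = (unpair v).2.length then
          if ([O (true :: pairBits (unpair v).1 w)] : List Bool) = [true] then [true] else []
            else [] := by
      simp only [kH, kQ, unpair_pairBits, List.map_cons, List.map_nil]
    rw [e1]
    split_ifs with h3 h4
    · simpa [h3] using h4
    · simpa [h3] using h4
    · simp [h3]
  constructor
  · rintro ⟨w, h3, h4⟩
    refine ⟨w, ?_, (h2 w).2 ⟨h3, h4⟩⟩
    have := unpair_len v
    rw [Polynomial.eval_X]
    omega
  · rintro ⟨w, _, hw⟩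
    exact ⟨w, (h2 w).1 hw⟩

/-- the answers, normalized -/
theorem isP_norm {O : Oracle} {L : Set (List Bool)} (h : IsP O L) :
    ∃ V : List Bool → List Bool, IsFP O V ∧ (∀ x, x ∈ L → V x = [true]) ∧
      ∀ x, x ∉ L → V x = [] := by
  obtain ⟨V, hV, hL⟩ := h
  have h1 : Poly (fun z : List Bool => if z = [true] then [true] else ([] : List Bool)) :=
    Poly.ite (Poly.decide_eq Poly.id (NPC.Poly.const _)) (NPC.Poly.const _) (NPC.Poly.const _)
  refine ⟨_, (IsFP.of_poly h1).comp hV, fun x hx => ?_, fun x hx => ?_⟩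
  · exact if_pos ((hL x).1 hx)
  · exact if_neg fun h => hx ((hL x).2 h)

theorem mem_enc_iff (V : List Bool → List Bool) (L : Set (List Bool))
    (h1 : ∀ x, x ∈ L → V x = [true]) (h2 : ∀ x, x ∉ L → V x = []) (xs : List (List Bool)) :
    true ∈ enc (xs.map V) ↔ ∃ x ∈ xs, x ∈ L := by
  induction xs with
  | nil => simp [enc]
  | cons x xs ih =>
    rw [List.map_cons, enc]
    by_cases hx : x ∈ L
    · rw [h1 x hx]
      simp [pairBits, hx]
    · rw [h2 x hx]
      simp only [pairBits, List.flatMap_nil, List.nil_append, List.mem_cons, ih]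
      simp [hx]

theorem good_of_isP {O : Oracle} (h : IsP O (TLang O)) : ∃ M q, GoodB O M q := by
  obtain ⟨V, hV, h1, h2⟩ := isP_norm h
  obtain ⟨G, hG1, hG2⟩ := exists_map hV
  have h3 : Poly (fun z : List Bool => if true ∈ z then [true] else ([] : List Bool)) :=
    Poly.ite (Poly.decide_mem (NPC.Poly.const _) Poly.id) (NPC.Poly.const _) (NPC.Poly.const _)
  obtain ⟨M, hM⟩ := (IsFP.of_poly h3).comp hG1
  refine ⟨M, Polynomial.C 1, {[true]}, fun xs n _ _ => ⟨_, hM _, ?_, ?_⟩⟩
  · rw [Polynomial.eval_C]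
    change (if true ∈ G (enc xs) then [true] else ([] : List Bool)).length ≤ 1
    split_ifs <;> simp
  · have h4 := mem_enc_iff V (TLang O) h1 h2 xs
    rw [← hG2] at h4
    change _ ↔ ∃ x ∈ xs, x ∈ TLang O
    rw [← h4]
    change (if true ∈ G (enc xs) then [true] else ([] : List Bool)) ∈ ({[true]} : Set _) ↔ _
    split_ifs with h5 <;> simp [h5]

theorem worldB : ∃ O : Oracle, (∃ L, IsNP O L ∧ ¬ IsP O L) ∧ (∀ L, IsNP O L → IsNP O Lᶜ) ∧
    (∃ Z, IsNP O Z ∧ NPHardRel O Z) ∧
    ∀ R S : Set (List Bool), NPHardRel O R → ¬ ORCompression O R S ∧ ¬ ANDCompression O R S := by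
  obtain ⟨R, Φ, hR, hΦ1, hΦ2, hΦ3, hΦ4⟩ := exists_codingB
  have hc : Countable (Polynomial ℕ) := CC.poly_countable
  have hne : Nonempty Alg := ⟨⟨_, CC.const_polyTime [], 0⟩⟩
  obtain ⟨B, hB, hgood⟩ := limit (D := Bool) (ι := Alg × Polynomial ℕ) (InvB R) (by
      intro B h e x
      obtain ⟨B', h1, h2⟩ := h ((loc R e x (ones ((R e).eval x.length))).length + 1)
      obtain ⟨w, h3, h4⟩ := h1 e x
      refine ⟨w, h3, ?_⟩
      rw [h2, h4]
      rw [length_loc, length_loc, length_ones, h3]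
      omega) (fun _ => true) (fun e x => ⟨ones ((R e).eval x.length), length_ones _, rfl⟩)
    (fun i B => ¬ GoodB (Φ B) i.1 i.2)
    (fun B hB i N => stageB hR hΦ1 hΦ2 hΦ3 B hB i.1 i.2 N)
  have hco : ∀ L, IsNP (Φ B) L → IsNP (Φ B) Lᶜ := fun L hL => (hΦ4 B hB L hL).1
  have hT := TLang_isNP (Φ B)
  refine ⟨Φ B, ⟨TLang (Φ B), hT, ?_⟩, hco, ⟨KLang (Φ B), KLang_isNP (Φ B), ?_⟩,
    fun L S hL => ⟨?_, ?_⟩⟩
  · intro h
    obtain ⟨M, q, h1⟩ := good_of_isP h
    exact hgood (M, q) h1
  · intro L hL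
    obtain ⟨_, e, he⟩ := hΦ4 B hB Lᶜ (hco L hL)
    rw [compl_compl] at he
    have h1 : UPoly (fun x : List Bool => x.length) := UPoly.length Poly.id
    have h3 : Poly (fun x : List Bool => List.replicate ((R e).eval x.length) true) :=
      (NPC.Poly.map (F := fun _ _ => true) (h1.eval (R e)) (NPC.Poly.const true)).congr
        fun x => by simp
    refine ⟨fun x => pairBits (code R e x) (List.replicate ((R e).eval x.length) true),
      IsFP.of_poly (poly_pairBits (poly_code R e) h3), fun x => ?_⟩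
    rw [he x]
    unfold KLang loc
    simp only [Set.mem_ofPred_eq, unpair_pairBits, List.length_replicate]
  · rintro ⟨F, q, hF, hFq⟩
    obtain ⟨f, hf, hfT⟩ := hL _ hT
    obtain ⟨M, q', hM⟩ := compose hf hF q (fun ys => F (enc ys) ∈ S ↔ ∃ x ∈ ys, x ∈ L)
      (fun xs n h1 h2 => hFq xs n h1 h2)
    refine hgood (M, q') ⟨S, fun xs n h1 h2 => ?_⟩
    obtain ⟨h3, h4, h5⟩ := hM xs n h1 h2
    refine ⟨_, h3, h4, ?_⟩
    rw [h5]
    constructor
    · rintro ⟨y, hy, hyL⟩
      obtain ⟨x, hx, rfl⟩ := List.mem_map.1 hy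
      exact ⟨x, hx, (hfT x).2 hyL⟩
    · rintro ⟨x, hx, hxT⟩
      exact ⟨f x, List.mem_map_of_mem hx, (hfT x).1 hxT⟩
  · rintro ⟨F, q, hF, hFq⟩
    obtain ⟨f, hf, hfT⟩ := hL _ (hco _ hT)
    obtain ⟨M, q', hM⟩ := compose hf hF q (fun ys => F (enc ys) ∈ S ↔ ∀ x ∈ ys, x ∈ L)
      (fun xs n h1 h2 => hFq xs n h1 h2)
    refine hgood (M, q') ⟨Sᶜ, fun xs n h1 h2 => ?_⟩
    obtain ⟨h3, h4, h5⟩ := hM xs n h1 h2
    refine ⟨_, h3, h4, ?_⟩
    rw [Set.mem_compl_iff, h5]
    constructor
    · intro h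
      push Not at h
      obtain ⟨y, hy, hyL⟩ := h
      obtain ⟨x, hx, rfl⟩ := List.mem_map.1 hy
      refine ⟨x, hx, ?_⟩
      by_contra hcon
      exact hyL ((hfT x).1 hcon)
    · rintro ⟨x, hx, hxT⟩ h
      exact (hfT x).2 (h (f x) (List.mem_map_of_mem hx)) hxT

end Pool.Agent.H593R3.DST
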