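import Pool.Agent.H593R3.DST.A3
import Pool.Agent.H593R3.DST.Map
import Pool.Agent.H593R3.DST.B3

/-!
# World A
-/

namespace Pool.Agent.H593R3.DST

open Pool.Agent.NPC Pool.Agent.H622R2 Pool.Agent.H620R2.Gauge.CC Pool.Agent.H877R3.Join
open Pool.Agent.H620R2.Gauge hiding IsNP

/-! ### The length of a longest string -/

/-- one step of the search for a longest string -/
def lstep (s : List Bool × List Bool) : List Bool × List Bool :=
  if s.2 = [] then s else
    (if s.1.length < (unpair s.2).1.length then (unpair s.2).1 else s.1, (unpair s.2).2)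

/-- the length of a longest string -/
def nmax (y : List Bool) : ℕ := ((lstep^[y.length] ([], y)).1).length

theorem poly_lstep : Poly lstep := by
  have hu : Poly (fun s : List Bool × List Bool => unpair s.2) :=
    poly_unpair.comp (Poly.snd Poly.id)
  exact Poly.ite (Poly.decide_eq (Poly.snd Poly.id) (NPC.Poly.const _)) Poly.id
    (Poly.pair (Poly.ite (Poly.decide_lt (Poly.length (Poly.fst Poly.id))
      (Poly.length (Poly.fst hu))) (Poly.fst hu) (Poly.fst Poly.id)) (Poly.snd hu))

theorem lstep_bound (y : List Bool) (k : ℕ) : (lstep^[k] ([], y)).1.length ≤ y.length ∧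
    (lstep^[k] ([], y)).2.length ≤ y.length := by
  induction k with
  | zero => simp
  | succ k ih =>
    rw [Function.iterate_succ_apply']
    set s := lstep^[k] ([], y) with hs
    have h := unpair_len s.2
    unfold lstep
    split_ifs with h1 h2
    · exact ih
    · exact ⟨by show (unpair s.2).1.length ≤ _; omega, by show (unpair s.2).2.length ≤ _; omega⟩
    · exact ⟨ih.1, by show (unpair s.2).2.length ≤ _; omega⟩

theorem nmax_le (y : List Bool) : nmax y ≤ y.length := (lstep_bound y y.length).1

theorem upoly_nmax : UPoly nmax := by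
  have h : Poly (fun y : List Bool => lstep^[y.length] ([], y)) := by
    refine Poly.iterLen (F := fun _ => lstep) (s := fun y : List Bool => ([], y)) Poly.id
      (Poly.pair (NPC.Poly.const _) Poly.id) (poly_lstep.comp (Poly.snd Poly.id))
      (Polynomial.C 8 * Polynomial.X + Polynomial.C 3) ?_
    intro y k _
    obtain ⟨h1, h2⟩ := lstep_bound y k
    have h3 := length_lt_sz y
    have h4 := sz_listBool_le (lstep^[k] ([], y)).1
    have h5 := sz_listBool_le (lstep^[k] ([], y)).2
    have h6 : sz (lstep^[k] ([], y)) = sz (lstep^[k] ([], y)).1 + sz (lstep^[k] ([], y)).2 + 1 :=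
      sz_pair _ _
    simp only [Polynomial.eval_add, Polynomial.eval_mul, Polynomial.eval_C, Polynomial.eval_X]
    omega
  exact UPoly.length (Poly.fst h)

theorem lstep_iter : ∀ (i : ℕ) (m : List Bool) (xs : List (List Bool)), xs.length ≤ i →
    m.length ≤ (lstep^[i] (m, enc xs)).1.length ∧
    (∀ x ∈ xs, x.length ≤ (lstep^[i] (m, enc xs)).1.length) ∧
    ∀ n : ℕ, m.length ≤ n → (∀ x ∈ xs, x.length ≤ n) →
      (lstep^[i] (m, enc xs)).1.length ≤ n := by
  intro i
  induction i with
  | zero =>
    intro m xs h
    have : xs = [] := List.length_eq_zero_iff.1 (by omega)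
    subst this
    simp
  | succ i ih =>
    intro m xs h
    rw [Function.iterate_succ_apply]
    cases xs with
    | nil =>
      have e : lstep (m, enc []) = (m, enc []) := rfl
      rw [e]
      exact ih m [] (by simp)
    | cons x xs =>
      have e : lstep (m, enc (x :: xs)) = (if m.length < x.length then x else m, enc xs) := by
        unfold lstep
        rw [if_neg (enc_ne_nil x xs), enc, unpair_pairBits]
      rw [e]
      obtain ⟨h1, h2, h3⟩ := ih (if m.length < x.length then x else m) xs (by simpa using h)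
      refine ⟨?_, ?_, ?_⟩
      · split_ifs at h1 ⊢ with hm
        · exact hm.le.trans h1
        · exact h1
      · intro z hz
        rcases List.mem_cons.1 hz with rfl | hz
        · split_ifs at h1 ⊢ with hm
          · exact h1
          · exact (not_lt.1 hm).trans h1
        · exact h2 z hz
      · intro n hn hx
        apply h3 n
        · split_ifs
          · exact hx x List.mem_cons_self
          · exact hn
        · exact fun z hz => hx z (List.mem_cons_of_mem _ hz)

theorem nmax_enc (xs : List (List Bool)) : (∀ x ∈ xs, x.length ≤ nmax (enc xs)) ∧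
    ∀ n : ℕ, (∀ x ∈ xs, x.length ≤ n) → nmax (enc xs) ≤ n := by
  obtain ⟨_, h2, h3⟩ := lstep_iter (enc xs).length [] xs (length_le_enc xs)
  exact ⟨h2, fun n hn => h3 n (Nat.zero_le _) hn⟩

/-! ### The codes can be read -/

section
variable {R : ℕ → Polynomial ℕ} {W : ℕ → List Bool → Oracle → Prop}

/-- the length of the code -/
def SA (R : ℕ → Polynomial ℕ) (e : ℕ) (y : List Bool) : ℕ := (R e).eval (nmax y)

theorem SA_le (R : ℕ → Polynomial ℕ) (e : ℕ) (y : List Bool) : SA R e y ≤ (R e).eval y.length :=
  eval_mono _ (nmax_le y)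

theorem poly_locT (R : ℕ → Polynomial ℕ) (e : ℕ) :
    Poly (fun y : List Bool => (List.range (SA R e y + 1)).map (fun j => locT R e y j)) := by
  have h1 : UPoly (SA R e) := upoly_nmax.eval (R e)
  have h2 : UPoly (fun y => SA R e y + 1) := h1.add (UPoly.const 1)
  exact NPC.Poly.map (F := fun y j => locT R e y j) h2.range
    (Poly.cons (NPC.Poly.const _) (Poly.cons (NPC.Poly.const _)
      (poly_pairBits ((poly_code R e).comp (Poly.fst Poly.id)) (R2.poly_bits (Poly.snd Poly.id)))))

open Classical in
theorem isFP_codeOf (hW : ∀ e y A A', (∀ z : List Bool, z.length ≤ SA R e y → A z = A' z) →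
      (W e y A ↔ W e y A')) (X : Dat) (e : ℕ) :
    IsFP (PhiA R (SA R) W X)
      (fun y => codeOf (SA R) X e y (decide (W e y (PhiA R (SA R) W X)))) := by
  have h := IsFP.tt (A := PhiA R (SA R) W X) (poly_locT R e) (H := fun p => p.2)
    (Poly.snd Poly.id)
  refine (congrArg (IsFP _) (funext fun y => ?_)).mp h
  apply List.ext_getElem
  · rw [length_codeOf]
    simp
  · intro j h1 h2
    rw [length_codeOf] at h2
    simp only [List.getElem_map, List.getElem_range]
    rw [PhiA_body (SA_le R) hW, body_locT _ _ _ _ _ (by omega)]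
    rw [List.getD_eq_getElem?_getD, List.getElem?_eq_getElem (by rw [length_codeOf]; omega)]
    rfl

/-- the complete language -/
def ZLang (O : Oracle) : Set (List Bool) :=
  {u | (u[0]? = some false ∧ u[1]? = some true) ∨
    ∃ w : List Bool, w.length = u.length ∧ O (locZ u w) = true}

/-- the decision -/
def zH (t : List Bool × List Bool) : List Bool :=
  if (unpair t.1).1[0]? = some false then
    if (unpair t.1).1[1]? = some true then [true] else
      if (unpair t.1).2.length = (unpair t.1).1.length then
        if t.2 = [true] then [true] else [] else []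
  else if (unpair t.1).2.length = (unpair t.1).1.length then
        if t.2 = [true] then [true] else [] else []

/-- the question -/
def zQ (y : List Bool) : List (List Bool) := [locZ (unpair y).1 (unpair y).2]

theorem poly_zQ : Poly zQ := by
  have hw : Poly (fun y => (unpair y).2) := Poly.snd poly_unpair
  have hx : Poly (fun y => (unpair y).1) := Poly.fst poly_unpair
  exact Poly.cons (Poly.cons (NPC.Poly.const _) (Poly.cons (NPC.Poly.const _)
    (poly_pairBits hx hw))) (NPC.Poly.const [])

theorem poly_zH : Poly zH := by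
  have hu : Poly (fun t : List Bool × List Bool => unpair t.1) :=
    poly_unpair.comp (Poly.fst Poly.id)
  have h1 : Poly (fun t : List Bool × List Bool =>
      if (unpair t.1).2.length = (unpair t.1).1.length then
        if t.2 = [true] then [true] else [] else ([] : List Bool)) :=
    Poly.ite (Poly.decide_eq (Poly.length (Poly.snd hu)) (Poly.length (Poly.fst hu)))
      (Poly.ite (Poly.decide_eq (Poly.snd Poly.id) (NPC.Poly.const _)) (NPC.Poly.const _)
        (NPC.Poly.const _)) (NPC.Poly.const _)
  exact Poly.ite (Poly.decide_eq (Poly.getElem? (Poly.fst hu) (NPC.Poly.const 0))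
    (NPC.Poly.const _)) (Poly.ite (Poly.decide_eq (Poly.getElem? (Poly.fst hu)
      (NPC.Poly.const 1)) (NPC.Poly.const _)) (NPC.Poly.const _) h1) h1

theorem ZLang_isNP (O : Oracle) : IsNP O (ZLang O) := by
  refine ⟨_, Polynomial.X, IsFP.tt (A := O) poly_zQ poly_zH, fun u => ?_⟩
  have h2 : ∀ w : List Bool, zH (pairBits u w, (zQ (pairBits u w)).map O) = [true] ↔
      ((u[0]? = some false ∧ u[1]? = some true) ∨
        (w.length = u.length ∧ O (locZ u w) = true)) := by
    intro w
    simp only [zH, zQ, unpair_pairBits, List.map_cons, List.map_nil]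
    split_ifs with h3 h4 h5 h6 h5 h6 <;> simp_all
  constructor
  · rintro (h3 | ⟨w, h3, h4⟩)
    · exact ⟨[], Nat.zero_le _, (h2 []).2 (Or.inl h3)⟩
    · exact ⟨w, by rw [Polynomial.eval_X]; exact h3.le, (h2 w).2 (Or.inr ⟨h3, h4⟩)⟩
  · rintro ⟨w, _, hw⟩
    rcases (h2 w).1 hw with h3 | h3
    · exact Or.inl h3
    · exact Or.inr ⟨w, h3⟩

open Classical in
theorem codeOf_mem (hW : ∀ e y A A', (∀ z : List Bool, z.length ≤ SA R e y → A z = A' z) →
      (W e y A ↔ W e y A')) {X : Dat} (hX : InvA X) (e : ℕ) (y : List Bool)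
    (h1 : 1 ≤ SA R e y) :
    codeOf (SA R) X e y (decide (W e y (PhiA R (SA R) W X))) ∈ ZLang (PhiA R (SA R) W X) ↔
      W e y (PhiA R (SA R) W X) := by
  have hz : ∀ u w : List Bool, w.length = u.length →
      (PhiA R (SA R) W X (locZ u w) = true ↔ (X (locZ u w)).1 = true ∧
        ∃ e y, Special (SA R) X e y u ∧ W e y (PhiA R (SA R) W X)) := by
    intro u w hw
    rw [PhiA_body (SA_le R) hW, body_locZ _ _ _ _ hw]
  by_cases h : ∃ u, Special (SA R) X e y u
  · have e1 : codeOf (SA R) X e y (decide (W e y (PhiA R (SA R) W X))) = h.choose := by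
      unfold codeOf
      rw [dif_pos h]
    rw [e1]
    have hs := h.choose_spec
    set u := h.choose with hu
    constructor
    · rintro (⟨h3, _⟩ | ⟨w, h3, h4⟩)
      · have h5 := hs.2.1
        rw [List.head?_eq_getElem?, h3] at h5
        simp at h5
      · obtain ⟨_, e', y', h5, h6⟩ := (hz u w h3).1 h4
        have h7 := h5.2.2
        rw [hs.2.2, Option.some.injEq, Prod.mk.injEq] at h7
        obtain ⟨rfl, rfl⟩ := h7
        exact h6
    · intro hWe
      obtain ⟨w, hw1, hw2⟩ := hX.1 u
      exact Or.inr ⟨w, hw1, (hz u w hw1).2 ⟨hw2, e, y, hs, hWe⟩⟩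
  · have e1 : codeOf (SA R) X e y (decide (W e y (PhiA R (SA R) W X))) =
        false :: List.replicate (SA R e y) (decide (W e y (PhiA R (SA R) W X))) := by
      unfold codeOf
      rw [dif_neg h]
    rw [e1]
    obtain ⟨s, hs⟩ : ∃ s, SA R e y = s + 1 := ⟨_, (Nat.sub_add_cancel h1).symm⟩
    rw [hs, List.replicate_succ]
    constructor
    · rintro (⟨_, h3⟩ | ⟨w, h3, h4⟩)
      · simpa using h3
      · obtain ⟨_, e', y', h5, _⟩ := (hz _ w h3).1 h4
        have h6 := h5.2.1
        simp at h6
    · intro hWe
      exact Or.inl ⟨rfl, by simp [hWe]⟩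

end

/-! ### The languages `U` -/

/-- the question -/
def uQ (c : Bool) (y : List Bool) : List (List Bool) := [true :: c :: (unpair y).2]

theorem poly_uQ (c : Bool) : Poly (uQ c) := by
  have hw : Poly (fun y => (unpair y).2) := Poly.snd poly_unpair
  exact Poly.cons (Poly.cons (NPC.Poly.const _) (Poly.cons (NPC.Poly.const _) hw))
    (NPC.Poly.const [])

theorem ULang_isUP (c : Bool) (O : Oracle) (hO : ∀ n : ℕ, ∃ v0 : List Bool, ∀ v : List Bool,
    v.length = n + 1 → (O (true :: v) = true ↔ v = v0)) : IsUP O (ULang c O) := by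
  have h2 : ∀ x w : List Bool, tH (pairBits x w, (uQ c (pairBits x w)).map O) = [true] ↔
      w.length = x.length ∧ O (true :: c :: w) = true := by
    intro x w
    have e1 : tH (pairBits x w, (uQ c (pairBits x w)).map O) =
        if w.length = x.length then
          if ([O (true :: c :: w)] : List Bool) = [true] then [true] else [] else [] := by
      simp only [tH, uQ, unpair_pairBits, List.map_cons, List.map_nil]
    rw [e1]
    split_ifs with h3 h4
    · simpa [h3] using h4
    · simpa [h3] using h4
    · simp [h3]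
  refine ⟨_, Polynomial.X, IsFP.tt (A := O) (poly_uQ c) poly_tH, fun x => ?_, ?_⟩
  · constructor
    · rintro ⟨y, h3, h4⟩
      exact ⟨y, by rw [Polynomial.eval_X]; exact h3.le, (h2 x y).2 ⟨h3, h4⟩⟩
    · rintro ⟨w, _, hw⟩
      exact ⟨w, (h2 x w).1 hw⟩
  · intro x w w' _ _ h3 h4
    obtain ⟨h5, h6⟩ := (h2 x w).1 h3
    obtain ⟨h7, h8⟩ := (h2 x w').1 h4
    obtain ⟨v0, hv0⟩ := hO x.length
    have h9 := (hv0 (c :: w) (by rw [List.length_cons, h5])).1 h6
    have h10 := (hv0 (c :: w') (by rw [List.length_cons, h7])).1 h8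
    rw [← h10, List.cons.injEq] at h9
    exact h9.2

theorem ULang_compl (O : Oracle) (hO : ∀ n : ℕ, ∃ v0 : List Bool, v0.length = n + 1 ∧
    ∀ v : List Bool, v.length = n + 1 → (O (true :: v) = true ↔ v = v0)) :
    (ULang true O)ᶜ = ULang false O := by
  ext x
  rw [Set.mem_compl_iff]
  obtain ⟨v0, hl, hv0⟩ := hO x.length
  constructor
  · intro h
    cases v0 with
    | nil => simp at hl
    | cons b y =>
      cases b with
      | true => exact absurd ⟨y, by simpa using hl, (hv0 _ hl).2 rfl⟩ h
      | false => exact ⟨y, by simpa using hl, (hv0 _ hl).2 rfl⟩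
  · rintro ⟨y, h1, h2⟩ ⟨y', h3, h4⟩
    have h5 := (hv0 _ (by rw [List.length_cons, h1])).1 h2
    have h6 := (hv0 _ (by rw [List.length_cons, h3])).1 h4
    rw [← h6, List.cons.injEq] at h5
    exact absurd h5.1 (by simp)

end Pool.Agent.H593R3.DST
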