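import Pool.Agent.H593R3.DST.A4

/-!
# World A
-/

namespace Pool.Agent.H593R3.DST

open Pool.Agent.NPC Pool.Agent.H622R2 Pool.Agent.H620R2.Gauge.CC Pool.Agent.H877R3.Join
open Pool.Agent.H620R2.Gauge hiding IsNP

/-- `NP` is closed under reductions -/
theorem isNP_of_reduction {O : Oracle} {f : List Bool → List Bool} (hf : IsFP O f)
    {Z L : Set (List Bool)} (hZ : IsNP O Z) (hL : ∀ x, x ∈ L ↔ f x ∈ Z) : IsNP O L := by
  obtain ⟨V, p, hV, hVZ⟩ := hZ
  have hf' := hf
  obtain ⟨M0, hM0⟩ := hf'
  obtain ⟨c, hc⟩ := M0.out_length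
  have h1 : IsFP O (fun y => f (unpair y).1) := hf.precomp (Poly.fst poly_unpair)
  have hφ : Poly (fun t : List Bool × List Bool => pairBits t.2 (unpair t.1).2) :=
    poly_pairBits (Poly.snd Poly.id) (Poly.snd (poly_unpair.comp (Poly.fst Poly.id)))
  have hψ : Poly (fun t : List Bool × List Bool × List Bool =>
      if (unpair t.1).2.length ≤ p.eval t.2.1.length then t.2.2 else ([] : List Bool)) :=
    Poly.ite (Poly.decide_le (Poly.length (Poly.snd (poly_unpair.comp (Poly.fst Poly.id))))
      (((UPoly.length (Poly.fst (Poly.snd Poly.id))).eval p).toPoly))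
      (Poly.snd (Poly.snd Poly.id)) (NPC.Poly.const _)
  have h2 := IsFP.seq h1 hV hφ hψ
  refine ⟨_, p.comp c, h2, fun x => ?_⟩
  rw [hL, hVZ]
  constructor
  · rintro ⟨w, h3, h4⟩
    refine ⟨w, ?_, ?_⟩
    · rw [Polynomial.eval_comp]
      exact h3.trans (eval_mono _ (hc O x _ (hM0 x)))
    · simp only [unpair_pairBits]
      rw [if_pos h3]
      exact h4
  · rintro ⟨w, _, h4⟩
    simp only [unpair_pairBits] at h4
    split_ifs at h4 with h5
    exact ⟨w, h5, h4⟩

theorem enc_inj : ∀ {xs ys : List (List Bool)}, enc xs = enc ys → xs = ys := by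
  intro xs
  induction xs with
  | nil =>
    intro ys h
    cases ys with
    | nil => rfl
    | cons y ys => exact absurd h.symm (enc_ne_nil y ys)
  | cons x xs ih =>
    intro ys h
    cases ys with
    | nil => exact absurd h (enc_ne_nil x xs)
    | cons y ys =>
      rw [enc, enc] at h
      obtain ⟨h1, h2⟩ := pairBits_inj h
      rw [h1, ih h2]

/-- disjunction -/
def hOR (a : List Bool) : List Bool := if true ∈ a then [true] else []

/-- conjunction -/
def hAND (a : List Bool) : List Bool := if false ∈ a then [] else [true]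

/-- negation -/
def hNOT (a : List Bool) : List Bool := if a = [false] then [true] else []

theorem polyTime_hOR : PolyTime hOR :=
  polyTime_of_poly_list (Poly.ite (Poly.decide_mem (NPC.Poly.const _) Poly.id)
    (NPC.Poly.const _) (NPC.Poly.const _))

theorem polyTime_hAND : PolyTime hAND :=
  polyTime_of_poly_list (Poly.ite (Poly.decide_mem (NPC.Poly.const _) Poly.id)
    (NPC.Poly.const _) (NPC.Poly.const _))

theorem polyTime_hNOT : PolyTime hNOT :=
  polyTime_of_poly_list (Poly.ite (Poly.decide_eq Poly.id (NPC.Poly.const _))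
    (NPC.Poly.const _) (NPC.Poly.const _))

theorem polyTime_hId : PolyTime (fun a : List Bool => a) := polyTime_of_poly_list Poly.id

theorem CombCompression.or {O : Oracle} {R S : Set (List Bool)}
    (h : CombCompression O hOR R S) : ORCompression O R S := by
  classical
  obtain ⟨F, q, hF, h1⟩ := h
  refine ⟨F, q, hF, fun xs n h2 h3 => ⟨(h1 xs n h2 h3).1, ?_⟩⟩
  rw [(h1 xs n h2 h3).2]
  unfold hOR
  split_ifs with h4
  · obtain ⟨x, hx, hx2⟩ := List.mem_map.1 h4
    unfold memBit at hx2
    rw [decide_eq_true_iff] at hx2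
    simp only [true_iff]
    exact ⟨x, hx, hx2⟩
  · constructor
    · intro h5
      simp at h5
    · rintro ⟨x, hx, hx2⟩
      exact absurd (List.mem_map.2 ⟨x, hx, by unfold memBit; exact decide_eq_true hx2⟩) h4

theorem CombCompression.and {O : Oracle} {R S : Set (List Bool)}
    (h : CombCompression O hAND R S) : ANDCompression O R S := by
  classical
  obtain ⟨F, q, hF, h1⟩ := h
  refine ⟨F, q, hF, fun xs n h2 h3 => ⟨(h1 xs n h2 h3).1, ?_⟩⟩
  rw [(h1 xs n h2 h3).2]
  unfold hAND
  split_ifs with h4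
  · obtain ⟨x, hx, hx2⟩ := List.mem_map.1 h4
    unfold memBit at hx2
    rw [decide_eq_false_iff_not] at hx2
    constructor
    · intro h5
      simp at h5
    · intro h5
      exact absurd (h5 x hx) hx2
  · simp only [true_iff]
    intro x hx
    by_contra hx2
    exact h4 (List.mem_map.2 ⟨x, hx, by unfold memBit; exact decide_eq_false hx2⟩)

theorem invA_limit (X : Dat) (h : ∀ N : ℕ, ∃ X', InvA X' ∧
    ∀ z : List Bool, z.length < N → X z = X' z) : InvA X := by
  constructor
  · intro u
    obtain ⟨X', h1, h2⟩ := h (3 * u.length + 4)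
    obtain ⟨w, h3, h4⟩ := h1.1 u
    refine ⟨w, h3, ?_⟩
    rw [h2 _ (by rw [length_locZ]; omega)]
    exact h4
  · intro n
    obtain ⟨X', h1, h2⟩ := h (n + 3)
    obtain ⟨v0, h3, h4⟩ := h1.2 n
    refine ⟨v0, h3, fun v hv => ?_⟩
    rw [h2 _ (by rw [List.length_cons]; omega)]
    exact h4 v hv

/-- the data at the beginning -/
def dat0 : Dat := fun v =>
  match v with
  | true :: v' => (decide (v' = ones v'.length), none)
  | _ => (true, none)

theorem invA_dat0 : InvA dat0 := by
  constructor
  · intro u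
    exact ⟨u, rfl, rfl⟩
  · intro n
    refine ⟨ones (n + 1), length_ones _, fun v hv => ?_⟩
    unfold dat0
    simp only [decide_eq_true_eq, hv]

theorem worldA : ∃ O : Oracle,
    (∃ L, IsUP O L ∧ IsUP O Lᶜ ∧ ¬ IsP O L) ∧ (∀ L, IsNP O L → IsNP O Lᶜ) ∧
    (∃ Z, IsNP O Z ∧ NPHardRel O Z) ∧
    ∀ L R : Set (List Bool), IsNP O L → NPHardRel O R → ∀ h : List Bool → List Bool,
      PolyTime h → CombCompression O h L R := by
  classical
  have hc : Countable (Polynomial ℕ) := CC.poly_countable
  have hc2 : Countable {D : List Bool → List Bool | PolyTime D} := countable_polyTime.to_subtype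
  have hne : Nonempty Alg := ⟨⟨_, CC.const_polyTime [], 0⟩⟩
  have hne2 : Nonempty {D : List Bool → List Bool | PolyTime D} := ⟨⟨_, polyTime_hId⟩⟩
  obtain ⟨g, hg⟩ := exists_surjective_nat
    ((Alg × Polynomial ℕ) × {D : List Bool → List Bool | PolyTime D})
  choose b hb using fun e : ℕ => (g e).1.1.out_local
  set R : ℕ → Polynomial ℕ := fun e => (b e).comp (Polynomial.C 2 * Polynomial.X +
    Polynomial.C 1 + (g e).1.2) + Polynomial.C 1 with hR
  have hRe : ∀ e n, (R e).eval n = (b e).eval (2 * n + 1 + (g e).1.2.eval n) + 1 := by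
    intro e n
    rw [hR]
    simp only [Polynomial.eval_add, Polynomial.eval_comp, Polynomial.eval_mul,
      Polynomial.eval_X, Polynomial.eval_C]
  set W : ℕ → List Bool → Oracle → Prop := fun e y A => ∃ xs : List (List Bool), enc xs = y ∧
    (g e).2.1 (xs.map (fun x => decide (AccN (g e).1.1 (g e).1.2 (cut (SA R e y) A) x))) = [true]
    with hWd
  have hW : ∀ e y A A', (∀ z : List Bool, z.length ≤ SA R e y → A z = A' z) →
      (W e y A ↔ W e y A') := by
    intro e y A A' h
    have hcut : cut (SA R e y) A = cut (SA R e y) A' := by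
      funext z
      unfold cut
      split_ifs with hz
      · exact h z hz
      · rfl
    simp only [hWd, hcut]
  have hWs : ∀ e xs A, W e (enc xs) A ↔
      (g e).2.1 (xs.map (fun x => decide (AccN (g e).1.1 (g e).1.2 A x))) = [true] := by
    intro e xs A
    have key : ∀ x ∈ xs, (AccN (g e).1.1 (g e).1.2 (cut (SA R e (enc xs)) A) x ↔
        AccN (g e).1.1 (g e).1.2 A x) := by
      intro x hx
      have key2 : ∀ w : List Bool, w.length ≤ (g e).1.2.eval x.length →
          (g e).1.1.out (cut (SA R e (enc xs)) A) (pairBits x w) =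
            (g e).1.1.out A (pairBits x w) := by
        intro w hw
        obtain ⟨Q, _, h2, h3⟩ := hb e A (pairBits x w)
        apply h3
        intro q hq
        have h4 := h2 q hq
        have h5 : (b e).eval (pairBits x w).length ≤
            (b e).eval (2 * nmax (enc xs) + 1 + (g e).1.2.eval (nmax (enc xs))) := by
          apply eval_mono
          have h6 := (nmax_enc xs).1 x hx
          have h7 : (g e).1.2.eval x.length ≤ (g e).1.2.eval (nmax (enc xs)) := eval_mono _ h6
          rw [Pool.Agent.H620R2.Gauge.length_pairBits]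
          omega
        have h6 := hRe e (nmax (enc xs))
        unfold cut SA
        rw [if_pos (by omega)]
      constructor
      · rintro ⟨w, h1, h2⟩
        exact ⟨w, h1, by rw [← key2 w h1]; exact h2⟩
      · rintro ⟨w, h1, h2⟩
        exact ⟨w, h1, by rw [key2 w h1]; exact h2⟩
    have hmap : xs.map (fun x => decide (AccN (g e).1.1 (g e).1.2 (cut (SA R e (enc xs)) A) x)) =
        xs.map (fun x => decide (AccN (g e).1.1 (g e).1.2 A x)) :=
      List.map_congr_left fun x hx => decide_eq_decide.2 (key x hx)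
    constructor
    · rintro ⟨ys, h1, h2⟩
      have h3 := enc_inj h1
      subst h3
      rw [← hmap]
      exact h2
    · intro h
      exact ⟨xs, rfl, by rw [hmap]; exact h⟩
  obtain ⟨X, hX, hgood⟩ := limit (D := Bool × Option (ℕ × List Bool)) (ι := Alg) InvA invA_limit
    dat0 invA_dat0
    (fun M X => ∃ x, ¬ (x ∈ ULang true (PhiA R (SA R) W X) ↔
          M.out (PhiA R (SA R) W X) x = some [true]))
    (fun X hX M N => stageA (SA_le R) hW X hX M N)
  set O : Oracle := PhiA R (SA R) W X with hO
  have hOU : ∀ n : ℕ, ∃ v0 : List Bool, v0.length = n + 1 ∧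
      ∀ v : List Bool, v.length = n + 1 → (O (true :: v) = true ↔ v = v0) := by
    intro n
    obtain ⟨v0, h1, h2⟩ := hX.2 n
    refine ⟨v0, h1, fun v hv => ?_⟩
    rw [hO, PhiA_body (SA_le R) hW, body_true]
    exact h2 v hv
  have hcomp : ∀ L : Set (List Bool), IsNP O L → ∀ h : List Bool → List Bool, PolyTime h →
      CombCompression O h L (ZLang O) := by
    rintro L ⟨V', p, ⟨M, hM⟩, hL⟩ h hh
    obtain ⟨e, he⟩ := hg ((M, p), ⟨h, hh⟩)
    refine ⟨_, R e + Polynomial.C 1, isFP_codeOf hW X e, fun xs n _ hn => ⟨?_, ?_⟩⟩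
    · rw [length_codeOf, Polynomial.eval_add, Polynomial.eval_C]
      exact Nat.succ_le_succ (eval_mono _ ((nmax_enc xs).2 n hn))
    · have hs : 1 ≤ SA R e (enc xs) := by
        unfold SA
        rw [hRe]
        omega
      rw [codeOf_mem hW hX e (enc xs) hs, hWs, he]
      have : (fun x => decide (AccN M p (PhiA R (SA R) W X) x)) = memBit L := by
        funext x
        unfold memBit
        apply decide_eq_decide.2
        rw [hL x]
        unfold AccN
        simp only [← hO, hM, Option.some.injEq]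
      rw [this]
  have hhard : NPHardRel O (ZLang O) := by
    intro L hL
    obtain ⟨F, q, hF, h1⟩ := hcomp L hL _ polyTime_hId
    have h2 : Poly (fun x : List Bool => enc [x]) := poly_pairBits Poly.id (NPC.Poly.const _)
    refine ⟨fun x => F (enc [x]), hF.precomp h2, fun x => ?_⟩
    have h3 := (h1 [x] x.length (by simp) (by simp)).2
    rw [h3]
    simp [memBit]
  refine ⟨O, ⟨ULang true O, ULang_isUP true O fun n => ?_, ?_, ?_⟩, ?_, ⟨ZLang O, ZLang_isNP O,
    hhard⟩, ?_⟩
  · obtain ⟨v0, _, h⟩ := hOU n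
    exact ⟨v0, h⟩
  · rw [ULang_compl O hOU]
    refine ULang_isUP false O fun n => ?_
    obtain ⟨v0, _, h⟩ := hOU n
    exact ⟨v0, h⟩
  · rintro ⟨V, ⟨M, hM⟩, hV⟩
    obtain ⟨x, hx⟩ := hgood M
    apply hx
    change x ∈ ULang true O ↔ M.out O x = some [true]
    rw [hM, hV x, Option.some.injEq]
  · intro L hL
    obtain ⟨F, q, hF, h1⟩ := hcomp L hL _ polyTime_hNOT
    have h2 : Poly (fun x : List Bool => enc [x]) := poly_pairBits Poly.id (NPC.Poly.const _)
    refine isNP_of_reduction (hF.precomp h2) (ZLang_isNP O) fun x => ?_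
    have h3 := (h1 [x] x.length (by simp) (by simp)).2
    rw [h3]
    simp [memBit, hNOT]
  · intro L R' hL hR' h hh
    obtain ⟨F, q, hF, h1⟩ := hcomp L hL h hh
    obtain ⟨f, hf, hfZ⟩ := hR' _ (ZLang_isNP O)
    have hf' := hf
    obtain ⟨M0, hM0⟩ := hf'
    obtain ⟨c, hc⟩ := M0.out_length
    refine ⟨fun y => f (F y), c.comp q, hf.comp hF, fun xs n h2 h3 => ⟨?_, ?_⟩⟩
    · rw [Polynomial.eval_comp]
      exact (hc O _ _ (hM0 _)).trans (eval_mono _ (h1 xs n h2 h3).1)
    · rw [← hfZ]
      exact (h1 xs n h2 h3).2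

end Pool.Agent.H593R3.DST
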