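import Pool.Agent.H593R3.DST.Defs
import Pool.Agent.H877R3.Join.Main

/-!
# World B: the coding
-/

namespace Pool.Agent.H593R3.DST

open Pool.Agent.NPC Pool.Agent.H622R2 Pool.Agent.H620R2.Gauge Pool.Agent.H620R2.Gauge.CC
  Pool.Agent.H877R3.Join

/-- the nondeterministic algorithm accepts -/
def AccN (M : Alg) (p : Polynomial ℕ) (A : Oracle) (x : List Bool) : Prop :=
  ∃ w : List Bool, w.length ≤ p.eval x.length ∧ M.out A (pairBits x w) = some [true]

/-- the location of the string `w` for the question whether algorithm number `e` accepts `x` -/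
def loc (R : ℕ → Polynomial ℕ) (e : ℕ) (x w : List Bool) : List Bool :=
  true :: pairBits (code R e x) w

theorem pairBits_inj {x w x' w' : List Bool} (h : pairBits x w = pairBits x' w') :
    x = x' ∧ w = w' := by
  have h1 := congrArg unpair h
  rw [unpair_pairBits, unpair_pairBits, Prod.mk.injEq] at h1
  exact h1

theorem loc_inj {R : ℕ → Polynomial ℕ} {e e' : ℕ} {x w x' w' : List Bool}
    (h : loc R e x w = loc R e' x' w') : e = e' ∧ x = x' ∧ w = w' := by
  unfold loc at h
  rw [List.cons.injEq] at h
  obtain ⟨h1, h2⟩ := pairBits_inj h.2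
  obtain ⟨h3, h4⟩ := code_inj R h1
  exact ⟨h3, h4, h2⟩

theorem length_loc (R : ℕ → Polynomial ℕ) (e : ℕ) (x w : List Bool) :
    (loc R e x w).length = 2 * (e + (R e).eval x.length + x.length + 2) + 2 + w.length := by
  unfold loc code
  rw [List.length_cons, Pool.Agent.H620R2.Gauge.length_pairBits]
  simp only [List.length_append, List.length_replicate, List.length_cons]
  ring

/-- `y` is the location of a string of the right length -/
def IsLoc (R : ℕ → Polynomial ℕ) (y : List Bool) : Prop :=
  ∃ p : ℕ × List Bool, ∃ w : List Bool, y = loc R p.1 p.2 w ∧ w.length = (R p.1).eval p.2.length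

open Classical in
/-- the oracle -/
noncomputable def PhiB (R : ℕ → Polynomial ℕ) (V : ℕ → Oracle → List Bool → Prop) (B : Oracle)
    (y : List Bool) : Bool :=
  if h : IsLoc R y then
    B y && !decide (V h.choose.1
      (fun z => if _hz : z.length < y.length then PhiB R V B z else false) h.choose.2)
  else B y
termination_by y.length

theorem PhiB_not {R : ℕ → Polynomial ℕ} {V : ℕ → Oracle → List Bool → Prop} {B : Oracle}
    {y : List Bool} (h : ¬ IsLoc R y) : PhiB R V B y = B y := by
  rw [PhiB, dif_neg h]

theorem PhiB_le {R : ℕ → Polynomial ℕ} {V : ℕ → Oracle → List Bool → Prop} {B : Oracle}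
    {y : List Bool} (h : B y = false) : PhiB R V B y = false := by
  rw [PhiB]
  split_ifs with h1
  · rw [h]
    rfl
  · exact h

open Classical in
theorem PhiB_loc {R : ℕ → Polynomial ℕ} {V : ℕ → Oracle → List Bool → Prop} {B : Oracle}
    (hV : ∀ e A A' x, (∀ z : List Bool, z.length < (code R e x).length → A z = A' z) →
      (V e A x ↔ V e A' x)) (e : ℕ) (x w : List Bool) (hw : w.length = (R e).eval x.length) :
    PhiB R V B (loc R e x w) = (B (loc R e x w) && !decide (V e (PhiB R V B) x)) := by
  have h : IsLoc R (loc R e x w) := ⟨(e, x), w, rfl, hw⟩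
  rw [PhiB, dif_pos h]
  obtain ⟨w', h1, h2⟩ := h.choose_spec
  obtain ⟨h3, h4, h5⟩ := loc_inj h1
  rw [← h3, ← h4]
  have : V e (fun z => if _hz : z.length < (loc R e x w).length then PhiB R V B z else false) x ↔
      V e (PhiB R V B) x := by
    apply hV
    intro z hz
    rw [dif_pos]
    unfold loc
    rw [List.length_cons, Pool.Agent.H620R2.Gauge.length_pairBits]
    omega
  simp only [this]

theorem PhiB_local (R : ℕ → Polynomial ℕ) (V : ℕ → Oracle → List Bool → Prop) (B B' : Oracle)
    (n : ℕ) (h : ∀ z : List Bool, z.length ≤ n → B z = B' z) :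
    ∀ (m : ℕ) (y : List Bool), y.length ≤ m → y.length ≤ n → PhiB R V B y = PhiB R V B' y := by
  classical
  intro m
  induction m with
  | zero =>
    intro y hm hn
    rw [PhiB, PhiB]
    have e : (fun z : List Bool => if _hz : z.length < y.length then PhiB R V B z else false) =
        (fun z : List Bool => if _hz : z.length < y.length then PhiB R V B' z else false) := by
      funext z
      have : ¬ z.length < y.length := by omega
      rw [dif_neg this, dif_neg this]
    rw [e, h y hn]
  | succ m ih =>
    intro y hm hn
    rw [PhiB, PhiB]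
    have e : (fun z : List Bool => if _hz : z.length < y.length then PhiB R V B z else false) =
        (fun z : List Bool => if _hz : z.length < y.length then PhiB R V B' z else false) := by
      funext z
      by_cases hz : z.length < y.length
      · rw [dif_pos hz, dif_pos hz]
        exact ih z (by omega) (by omega)
      · rw [dif_neg hz, dif_neg hz]
    rw [e, h y hn]

/-- the question -/
def coQ (R : ℕ → Polynomial ℕ) (e : ℕ) (y : List Bool) : List (List Bool) :=
  [loc R e (unpair y).1 (unpair y).2]

/-- the decision -/
def coH (R : ℕ → Polynomial ℕ) (e : ℕ) (t : List Bool × List Bool) : List Bool :=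
  if (unpair t.1).2.length = (R e).eval (unpair t.1).1.length then
    if t.2 = [true] then [true] else []
  else []

theorem poly_coQ (R : ℕ → Polynomial ℕ) (e : ℕ) : Poly (coQ R e) := by
  have hw : Poly (fun y => (unpair y).2) := Poly.snd poly_unpair
  have hx : Poly (fun y => (unpair y).1) := Poly.fst poly_unpair
  exact Poly.cons (Poly.cons (NPC.Poly.const _) (poly_pairBits ((poly_code R e).comp hx) hw))
    (NPC.Poly.const [])

theorem poly_coH (R : ℕ → Polynomial ℕ) (e : ℕ) : Poly (coH R e) := by
  have hu : Poly (fun t : List Bool × List Bool => unpair t.1) :=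
    poly_unpair.comp (Poly.fst Poly.id)
  have h1 : UPoly (fun t : List Bool × List Bool => (unpair t.1).1.length) :=
    UPoly.length (Poly.fst hu)
  have h2 := h1.eval (R e)
  have h3 : Poly (fun t : List Bool × List Bool =>
      List.replicate ((R e).eval (unpair t.1).1.length) true) :=
    (NPC.Poly.map (F := fun _ _ => true) h2 (NPC.Poly.const true)).congr fun x => by simp
  have h4 : Poly (fun t : List Bool × List Bool =>
      if (unpair t.1).2.length = (List.replicate ((R e).eval (unpair t.1).1.length) true).length
        then if t.2 = [true] then [true] else [] else ([] : List Bool)) :=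
    Poly.ite (Poly.decide_eq (Poly.length (Poly.snd hu)) (Poly.length h3))
      (Poly.ite (Poly.decide_eq (Poly.snd Poly.id) (NPC.Poly.const _)) (NPC.Poly.const _)
        (NPC.Poly.const _)) (NPC.Poly.const _)
  refine h4.congr fun t => ?_
  simp only [coH, List.length_replicate]

theorem exists_codingB : ∃ (R : ℕ → Polynomial ℕ) (Φ : Oracle → Oracle),
    (∀ e n, n + e + 1 ≤ (R e).eval n) ∧
    (∀ B y, ¬ IsLoc R y → Φ B y = B y) ∧
    (∀ B y, B y = false → Φ B y = false) ∧
    (∀ (n : ℕ) (B B' : Oracle), (∀ z : List Bool, z.length ≤ n → B z = B' z) →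
      ∀ z : List Bool, z.length ≤ n → Φ B z = Φ B' z) ∧
    ∀ B : Oracle, (∀ e x, ∃ w : List Bool, w.length = (R e).eval x.length ∧
      B (loc R e x w) = true) → ∀ L, IsNP (Φ B) L → IsNP (Φ B) Lᶜ ∧
        ∃ e, ∀ x, x ∈ Lᶜ ↔ ∃ w : List Bool, w.length = (R e).eval x.length ∧
          Φ B (loc R e x w) = true := by
  classical
  have hc : Countable (Polynomial ℕ) := CC.poly_countable
  have hne : Nonempty Alg := ⟨⟨_, CC.const_polyTime [], 0⟩⟩
  obtain ⟨g, hg⟩ := exists_surjective_nat (Alg × Polynomial ℕ)
  choose b hb using fun e : ℕ => (g e).1.out_local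
  set R : ℕ → Polynomial ℕ := fun e => (b e).comp (Polynomial.C 2 * Polynomial.X +
    Polynomial.C 1 + (g e).2) + Polynomial.X + Polynomial.C (e + 1) with hR
  have hRe : ∀ e n, (R e).eval n = (b e).eval (2 * n + 1 + (g e).2.eval n) + n + (e + 1) := by
    intro e n
    rw [hR]
    simp only [Polynomial.eval_add, Polynomial.eval_comp, Polynomial.eval_mul,
      Polynomial.eval_X, Polynomial.eval_C]
  set V : ℕ → Oracle → List Bool → Prop := fun e A x =>
    AccN (g e).1 (g e).2 (cut ((R e).eval x.length) A) x with hV
  have hloc : ∀ e A A' x, (∀ z : List Bool, z.length < (code R e x).length → A z = A' z) →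
      (V e A x ↔ V e A' x) := by
    intro e A A' x h
    have hcut : cut ((R e).eval x.length) A = cut ((R e).eval x.length) A' := by
      funext z
      unfold cut
      split_ifs with hz
      · apply h
        have h1 := lt_length_code R e x
        omega
      · rfl
    simp only [hV, hcut]
  have hVe : ∀ e A x, V e A x ↔ AccN (g e).1 (g e).2 A x := by
    intro e A x
    have key : ∀ w : List Bool, w.length ≤ (g e).2.eval x.length →
        (g e).1.out (cut ((R e).eval x.length) A) (pairBits x w) =
          (g e).1.out A (pairBits x w) := by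
      intro w hw
      obtain ⟨Q, _, h2, h3⟩ := hb e A (pairBits x w)
      apply h3
      intro q hq
      have h4 := h2 q hq
      have h5 : (b e).eval (pairBits x w).length ≤
          (b e).eval (2 * x.length + 1 + (g e).2.eval x.length) := by
        apply eval_mono
        rw [Pool.Agent.H620R2.Gauge.length_pairBits]
        omega
      have h6 := hRe e x.length
      unfold cut
      rw [if_pos (by omega)]
    constructor
    · rintro ⟨w, h1, h2⟩
      exact ⟨w, h1, by rw [← key w h1]; exact h2⟩
    · rintro ⟨w, h1, h2⟩
      exact ⟨w, h1, by rw [key w h1]; exact h2⟩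
  refine ⟨R, PhiB R V, ?_, fun B y h => PhiB_not h, fun B y h => PhiB_le h,
    fun n B B' h z hz => PhiB_local R V B B' n h z.length z le_rfl hz, ?_⟩
  · intro e n
    have := hRe e n
    omega
  · rintro B hB L ⟨V', p, ⟨M, hM⟩, hL⟩
    obtain ⟨e, he⟩ := hg (M, p)
    have h1 : ∀ x, x ∈ L ↔ V e (PhiB R V B) x := by
      intro x
      rw [hVe, he, hL x]
      unfold AccN
      simp only [hM, Option.some.injEq]
    have h6 : ∀ x, x ∈ Lᶜ ↔ ∃ w : List Bool, w.length = (R e).eval x.length ∧
        PhiB R V B (loc R e x w) = true := by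
      intro x
      constructor
      · intro hx
        obtain ⟨w, hw, hBw⟩ := hB e x
        refine ⟨w, hw, ?_⟩
        rw [PhiB_loc hloc e x w hw, hBw]
        have h3 : ¬ V e (PhiB R V B) x := fun h => hx ((h1 x).2 h)
        simp [h3]
      · rintro ⟨w, h3, h4⟩ hx
        rw [PhiB_loc hloc e x w h3] at h4
        have h5 := (h1 x).1 hx
        simp [h5] at h4
    refine ⟨⟨_, R e, IsFP.tt (A := PhiB R V B) (poly_coQ R e) (poly_coH R e), fun x => ?_⟩,
      e, h6⟩
    have h2 : ∀ w : List Bool, coH R e (pairBits x w, (coQ R e (pairBits x w)).map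
        (PhiB R V B)) = [true] ↔ w.length = (R e).eval x.length ∧
          PhiB R V B (loc R e x w) = true := by
      intro w
      have e1 : coH R e (pairBits x w, (coQ R e (pairBits x w)).map (PhiB R V B)) =
          if w.length = (R e).eval x.length then
            if ([PhiB R V B (loc R e x w)] : List Bool) = [true] then [true] else [] else [] := by
        simp only [coH, coQ, unpair_pairBits, List.map_cons, List.map_nil]
      rw [e1]
      split_ifs with h3 h4
      · simpa [h3] using h4
      · simpa [h3] using h4
      · simp [h3]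
    rw [h6 x]
    constructor
    · rintro ⟨w, h3, h4⟩
      exact ⟨w, h3.le, (h2 w).2 ⟨h3, h4⟩⟩
    · rintro ⟨w, _, hw⟩
      exact ⟨w, (h2 w).1 hw⟩

end Pool.Agent.H593R3.DST
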