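import Mathlib

/-!
# Finite extension
-/

namespace Pool.Agent.H593R3.DST

/-- A construction by finite extension. -/
theorem limit {D ι : Type} [Countable ι] [Nonempty ι] (Inv : (List Bool → D) → Prop)
    (hInv : ∀ B, (∀ N : ℕ, ∃ B', Inv B' ∧ ∀ z : List Bool, z.length < N → B z = B' z) → Inv B)
    (B0 : List Bool → D) (h0 : Inv B0) (Good : ι → (List Bool → D) → Prop)
    (step : ∀ B, Inv B → ∀ (i : ι) (N : ℕ), ∃ (B' : List Bool → D) (N' : ℕ), N < N' ∧
      (∀ z : List Bool, z.length < N → B' z = B z) ∧ Inv B' ∧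
      ∀ B'' : List Bool → D, (∀ z : List Bool, z.length < N' → B'' z = B' z) → Good i B'') :
    ∃ B, Inv B ∧ ∀ i, Good i B := by
  obtain ⟨g, hg⟩ := exists_surjective_nat ι
  choose F G h1 h2 h3 h4 using step
  let nxt : (Σ' (B : List Bool → D), PProd (Inv B) ℕ) → ℕ →
      (Σ' (B : List Bool → D), PProd (Inv B) ℕ) := fun s k =>
    ⟨F s.1 s.2.1 (g k) s.2.2, h3 s.1 s.2.1 (g k) s.2.2, G s.1 s.2.1 (g k) s.2.2⟩
  let sq : ℕ → (Σ' (B : List Bool → D), PProd (Inv B) ℕ) := fun k =>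
    Nat.rec ⟨B0, h0, 0⟩ (fun k s => nxt s k) k
  have hsq : ∀ k, sq (k + 1) = nxt (sq k) k := fun k => rfl
  have hlt : ∀ k, (sq k).2.2 < (sq (k + 1)).2.2 := fun k => h1 _ _ _ _
  have hN : ∀ k, k ≤ (sq k).2.2 := by
    intro k
    induction k with
    | zero => exact Nat.zero_le _
    | succ k ih =>
      have := hlt k
      omega
  have hmono : ∀ k l, k ≤ l → (sq k).2.2 ≤ (sq l).2.2 ∧
      ∀ z : List Bool, z.length < (sq k).2.2 → (sq l).1 z = (sq k).1 z := by
    intro k l hkl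
    induction l, hkl using Nat.le_induction with
    | base => exact ⟨le_rfl, fun _ _ => rfl⟩
    | succ l hkl ih =>
      have h5 := hlt l
      refine ⟨by omega, fun z hz => ?_⟩
      have h6 : (sq (l + 1)).1 z = (sq l).1 z := h2 _ _ _ _ z (lt_of_lt_of_le hz ih.1)
      rw [h6]
      exact ih.2 z hz
  set X : List Bool → D := fun z => (sq (z.length + 1)).1 z with hX
  have hlim : ∀ (k : ℕ) (z : List Bool), z.length < (sq k).2.2 → X z = (sq k).1 z := by
    intro k z hz
    rw [hX]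
    rcases le_total (z.length + 1) k with h | h
    · have := hN (z.length + 1)
      exact ((hmono _ _ h).2 z (by omega)).symm
    · exact (hmono _ _ h).2 z hz
  refine ⟨X, hInv X fun N => ⟨(sq N).1, (sq N).2.1, fun z hz => hlim N z ?_⟩, fun i => ?_⟩
  · have := hN N
    omega
  · obtain ⟨k, rfl⟩ := hg i
    exact h4 (sq k).1 (sq k).2.1 (g k) (sq k).2.2 X fun z hz => hlim (k + 1) z hz

end Pool.Agent.H593R3.DST
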