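import Pool.Agent.H593R3.DST.B1
import Pool.Agent.H593R3.DST.Limit

/-!
# World B: one stage
-/

namespace Pool.Agent.H593R3.DST

open Pool.Agent.NPC Pool.Agent.H622R2 Pool.Agent.H620R2.Gauge Pool.Agent.H620R2.Gauge.CC
  Pool.Agent.H877R3.Join

/-- some string of length `s` avoids a set of fewer than `2 ^ s` strings -/
theorem exists_avoid (f : List Bool → List Bool) (hf : Function.Injective f) (s : ℕ)
    (Q : Finset (List Bool)) (hQ : Q.card < 2 ^ s) : ∃ w : List Bool, w.length = s ∧ f w ∉ Q := by
  classical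
  by_contra hcon
  push Not at hcon
  have h1 : Fintype.card (List.Vector Bool s) ≤ Fintype.card Q := by
    refine Fintype.card_le_of_injective (fun v => (⟨f v.1, hcon v.1 v.2⟩ : Q)) ?_
    intro v v' h
    have h2 : f v.1 = f v'.1 := congrArg Subtype.val h
    exact Subtype.ext (hf h2)
  rw [card_vector, Fintype.card_bool, Fintype.card_coe] at h1
  omega

theorem length_enc_le (n : ℕ) : ∀ xs : List (List Bool), (∀ x ∈ xs, x.length ≤ n) →
    (enc xs).length ≤ xs.length * (2 * n + 1) := by
  intro xs
  induction xs with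
  | nil => intro _; simp [enc]
  | cons x xs ih =>
    intro h
    have h1 := ih fun y hy => h y (List.mem_cons_of_mem _ hy)
    have h2 := h x List.mem_cons_self
    rw [enc, Pool.Agent.H620R2.Gauge.length_pairBits, List.length_cons]
    have h3 : (xs.length + 1) * (2 * n + 1) = xs.length * (2 * n + 1) + (2 * n + 1) := by ring
    omega

/-- strings of length at most `k`, padded -/
def padTo (k : ℕ) (z : List Bool) : List Bool := List.replicate (k - z.length) true ++ false :: z

theorem padTo_length {k : ℕ} {z : List Bool} (h : z.length ≤ k) : (padTo k z).length = k + 1 := by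
  unfold padTo
  simp only [List.length_append, List.length_replicate, List.length_cons]
  omega

/-- too many short strings: two of them are equal -/
theorem exists_collision (k m : ℕ) (hm : k + 1 < m) (z : (Fin m → Bool) → List Bool)
    (hz : ∀ b, (z b).length ≤ k) : ∃ b b', b ≠ b' ∧ z b = z b' := by
  classical
  by_contra hcon
  push Not at hcon
  have h1 : Fintype.card (Fin m → Bool) ≤ Fintype.card (List.Vector Bool (k + 1)) := by
    refine Fintype.card_le_of_injective (fun b => (⟨padTo k (z b), padTo_length (hz b)⟩ :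
      List.Vector Bool (k + 1))) ?_
    intro b b' h
    by_contra hne
    have h2 : padTo k (z b) = padTo k (z b') := congrArg Subtype.val h
    exact hcon b b' hne (rep_inj _ _ _ _ h2).2
  rw [card_vector, Fintype.card_fun, Fintype.card_bool, Fintype.card_fin] at h1
  have h2 : 2 ^ (k + 1) < 2 ^ m := Nat.pow_lt_pow_right (by norm_num) hm
  omega

/-- the invariant -/
def InvB (R : ℕ → Polynomial ℕ) (B : Oracle) : Prop :=
  ∀ e x, ∃ w : List Bool, w.length = (R e).eval x.length ∧ B (loc R e x w) = true

/-- the test language is compressed by the algorithm -/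
def GoodB (O : Oracle) (M : Alg) (q : Polynomial ℕ) : Prop :=
  ∃ S : Set (List Bool), ∀ (xs : List (List Bool)) (n : ℕ), xs ≠ [] →
    (∀ x ∈ xs, x.length ≤ n) → ∃ z, M.out O (enc xs) = some z ∧ z.length ≤ q.eval n ∧
      (z ∈ S ↔ ∃ x ∈ xs, ∃ y : List Bool, y.length = x.length ∧ O (false :: (x ++ y)) = true)

theorem not_isLoc {R : ℕ → Polynomial ℕ} (z : List Bool) : ¬ IsLoc R (false :: z) := by
  rintro ⟨p, w, h, _⟩
  simp [loc] at h

open Classical in
/-- the extension -/
noncomputable def extB (R : ℕ → Polynomial ℕ) (t : ℕ) (Q : Finset (List Bool)) (z0 : List Bool)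
    (B : Oracle) : Oracle := fun z =>
  if z.length ≤ t then B z else decide (z ∉ Q ∧ (IsLoc R z ∨ z = z0))

theorem inv_extB {R : ℕ → Polynomial ℕ} (hR : ∀ e n, n + e + 1 ≤ (R e).eval n) {B : Oracle}
    (hB : InvB R B) (k : ℕ) (Q : Finset (List Bool)) (z0 : List Bool) (hQ : Q.card < 2 ^ k) :
    InvB R (extB R (10 * (k + 1)) Q z0 B) := by
  classical
  intro e x
  by_cases h : ∀ w : List Bool, w.length = (R e).eval x.length →
      (loc R e x w).length ≤ 10 * (k + 1)
  · obtain ⟨w, h1, h2⟩ := hB e x
    refine ⟨w, h1, ?_⟩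
    unfold extB
    rw [if_pos (h w h1), h2]
  · push Not at h
    obtain ⟨w0, h1, h2⟩ := h
    rw [length_loc, h1] at h2
    have h3 := hR e x.length
    have h4 : k ≤ (R e).eval x.length := by omega
    obtain ⟨w, hw, hwQ⟩ := exists_avoid (loc R e x) (fun w w' h => (loc_inj h).2.2)
      ((R e).eval x.length) Q (hQ.trans_le (Nat.pow_le_pow_right (by norm_num) h4))
    refine ⟨w, hw, ?_⟩
    unfold extB
    rw [if_neg (by rw [length_loc, hw]; omega), decide_eq_true_iff]
    exact ⟨hwQ, Or.inl ⟨(e, x), w, rfl, hw⟩⟩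

theorem stageB {R : ℕ → Polynomial ℕ} {Φ : Oracle → Oracle}
    (hR : ∀ e n, n + e + 1 ≤ (R e).eval n)
    (hΦ1 : ∀ B y, ¬ IsLoc R y → Φ B y = B y) (hΦ2 : ∀ B y, B y = false → Φ B y = false)
    (hΦ3 : ∀ (n : ℕ) (B B' : Oracle), (∀ z : List Bool, z.length ≤ n → B z = B' z) →
      ∀ z : List Bool, z.length ≤ n → Φ B z = Φ B' z)
    (B : Oracle) (hB : InvB R B) (M : Alg) (q : Polynomial ℕ) (N : ℕ) :
    ∃ (B' : Oracle) (N' : ℕ), N < N' ∧ (∀ z : List Bool, z.length < N → B' z = B z) ∧
      InvB R B' ∧ ∀ B'' : Oracle, (∀ z : List Bool, z.length < N' → B'' z = B' z) →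
        ¬ GoodB (Φ B'') M q := by
  classical
  obtain ⟨β, hb⟩ := M.out_local
  set r : Polynomial ℕ := (q + Polynomial.C 2) * (Polynomial.C 2 * Polynomial.X + Polynomial.C 1)
    with hr
  have hre : ∀ n, r.eval n = (q.eval n + 2) * (2 * n + 1) := by
    intro n
    rw [hr]
    simp only [Polynomial.eval_add, Polynomial.eval_mul, Polynomial.eval_C, Polynomial.eval_X]
  set P : Polynomial ℕ := (Polynomial.C 2 * (q + Polynomial.C 2) +
    Polynomial.C 2 * M.p.comp r + Polynomial.C 1).comp
      (Polynomial.C 5 * Polynomial.X + Polynomial.C 5) with hP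
  obtain ⟨k0, hk0⟩ := Filter.eventually_atTop.1 (poly_le P 1)
  obtain ⟨k, hkN, hk⟩ : ∃ k, N ≤ k ∧ k0 ≤ k := ⟨max N k0, le_max_left _ _, le_max_right _ _⟩
  have hPk := hk0 k hk
  set n : ℕ := 5 * k + 5 with hn
  have hPk' : 2 * (q.eval n + 2) + 2 * M.p.eval (r.eval n) + 1 ≤ 2 ^ k := by
    rw [one_mul, hP] at hPk
    simpa only [Polynomial.eval_add, Polynomial.eval_mul, Polynomial.eval_C, Polynomial.eval_X,
      Polynomial.eval_comp] using hPk
  have hkn : 2 ^ k ≤ 2 ^ n := Nat.pow_le_pow_right (by norm_num) (by omega)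
  set m : ℕ := q.eval n + 2 with hm
  set t : ℕ := 10 * (k + 1) with ht
  have ht2 : t = 2 * n := by omega
  set A : Oracle := cut t (Φ B) with hA
  -- the strings
  obtain ⟨ι⟩ : Nonempty (Fin m × Bool ↪ List.Vector Bool n) := by
    apply Function.Embedding.nonempty_of_card_le
    rw [card_vector, Fintype.card_bool, Fintype.card_prod, Fintype.card_fin, Fintype.card_bool]
    omega
  set X : (Fin m → Bool) → List (List Bool) := fun b => List.ofFn fun i => (ι (i, b i)).1 with hX
  have hXlen : ∀ b, ∀ x ∈ X b, x.length = n := by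
    intro b x hx
    rw [hX, List.mem_ofFn] at hx
    obtain ⟨i, rfl⟩ := hx
    exact (ι (i, b i)).2
  have hXne : ∀ b, X b ≠ [] := by
    intro b h
    have h1 := congrArg List.length h
    rw [hX] at h1
    simp only [List.length_ofFn, List.length_nil] at h1
    omega
  have hXmem : ∀ b i c, (ι (i, c)).1 ∈ X b ↔ b i = c := by
    intro b i c
    rw [hX, List.mem_ofFn]
    constructor
    · rintro ⟨j, hj⟩
      have h1 := ι.injective (Subtype.ext hj)
      rw [Prod.mk.injEq] at h1
      rw [← h1.1]
      exact h1.2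
    · rintro rfl
      exact ⟨i, rfl⟩
  have hXenc : ∀ b, (enc (X b)).length ≤ r.eval n := by
    intro b
    refine (length_enc_le n (X b) fun x hx => (hXlen b x hx).le).trans ?_
    rw [hre, hX, List.length_ofFn]
  choose Q hQ1 hQ2 hQ3 using fun b => hb A (enc (X b))
  have hQc : ∀ b, (Q b).card ≤ M.p.eval (r.eval n) := fun b =>
    (hQ1 b).trans (eval_mono _ (hXenc b))
  have hQl : ∀ b, ∀ z ∈ Q b, z.length ≤ β.eval (r.eval n) := fun b z hz =>
    (hQ2 b z hz).trans (eval_mono _ (hXenc b))
  -- the extension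
  have ext : ∀ (b b' : Fin m → Bool) (z0 : List Bool), ∃ (B' : Oracle) (N' : ℕ), N < N' ∧
      t < N' ∧ (β.eval (r.eval n) < N') ∧ z0.length < N' ∧
      (∀ z : List Bool, z.length ≤ t → B' z = B z) ∧ InvB R B' ∧
      (∀ z : List Bool, t < z.length → (B' z = true ↔ z ∉ Q b ∪ Q b' ∧ (IsLoc R z ∨ z = z0))) ∧
      ∀ B'' : Oracle, (∀ z : List Bool, z.length < N' → B'' z = B' z) →
        M.out (Φ B'') (enc (X b)) = M.out A (enc (X b)) ∧
        M.out (Φ B'') (enc (X b')) = M.out A (enc (X b')) := by
    intro b b' z0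
    have hcard : (Q b ∪ Q b').card < 2 ^ k := by
      have h1 := Finset.card_union_le (Q b) (Q b')
      have h2 := hQc b
      have h3 := hQc b'
      omega
    refine ⟨extB R t (Q b ∪ Q b') z0 B, max (max (N + 1) (t + 1))
      (max (β.eval (r.eval n) + 1) (z0.length + 1)), by omega, by omega, by omega, by omega,
      ?_, inv_extB hR hB k _ z0 hcard, ?_, ?_⟩
    · intro z hz
      unfold extB
      rw [if_pos hz]
    · intro z hz
      unfold extB
      rw [if_neg (by omega), decide_eq_true_iff]
    · intro B'' hB''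
      have key : ∀ z ∈ Q b ∪ Q b', Φ B'' z = A z := by
        intro z hz
        have hzl : z.length ≤ β.eval (r.eval n) := by
          rcases Finset.mem_union.1 hz with h | h
          · exact hQl _ z h
          · exact hQl _ z h
        rw [hA]
        unfold cut
        split_ifs with h
        · refine hΦ3 t B'' B (fun y hy => ?_) z h
          rw [hB'' y (by omega)]
          unfold extB
          rw [if_pos hy]
        · apply hΦ2
          rw [hB'' z (by omega)]
          unfold extB
          rw [if_neg h, decide_eq_false_iff_not]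
          exact fun h => h.1 hz
      exact ⟨hQ3 b _ fun z hz => key z (Finset.mem_union_left _ hz),
        hQ3 b' _ fun z hz => key z (Finset.mem_union_right _ hz)⟩
  by_cases hgood : ∀ b, ∃ z, M.out A (enc (X b)) = some z ∧ z.length ≤ q.eval n
  · choose z hz1 hz2 using hgood
    obtain ⟨b, b', hbb, hzz⟩ := exists_collision (q.eval n) m (by omega) z hz2
    obtain ⟨i, hi⟩ := Function.ne_iff.1 hbb
    set x' : List Bool := (ι (i, b' i)).1 with hx'
    have hx'l : x'.length = n := (ι (i, b' i)).2
    obtain ⟨y, hy, hyQ⟩ := exists_avoid (fun y => false :: (x' ++ y))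
      (fun y y' h => by simpa using h) n (Q b ∪ Q b') (by
        have h1 := Finset.card_union_le (Q b) (Q b')
        have h2 := hQc b
        have h3 := hQc b'
        omega)
    obtain ⟨B', N', h1, h2, h3, h4, h5, h6, h7, h8⟩ := ext b b' (false :: (x' ++ y))
    refine ⟨B', N', h1, fun z hz => h5 z (by omega), h6, fun B'' hB'' => ?_⟩
    rintro ⟨S, hS⟩
    obtain ⟨g1, g2⟩ := h8 B'' hB''
    have htest : ∀ x : List Bool, x.length = n → ((∃ w : List Bool, w.length = x.length ∧
        Φ B'' (false :: (x ++ w)) = true) ↔ x = x') := by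
      intro x hx
      have hl : (false :: (x' ++ y)).length = 2 * n + 1 := by
        simp only [List.length_cons, List.length_append, hx'l, hy]
        ring
      have e : ∀ w : List Bool, w.length = x.length → (Φ B'' (false :: (x ++ w)) = true ↔
          B' (false :: (x ++ w)) = true) := by
        intro w hw
        rw [hΦ1 _ _ (not_isLoc _), hB'']
        rw [List.length_cons, List.length_append]
        omega
      constructor
      · rintro ⟨w, hw, h⟩
        rw [e w hw, h7 _ (by rw [List.length_cons, List.length_append]; omega)] at h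
        rcases h.2 with h9 | h9
        · exact absurd h9 (not_isLoc _)
        · rw [List.cons.injEq] at h9
          exact (List.append_inj h9.2 (by omega)).1
      · rintro rfl
        refine ⟨y, by omega, ?_⟩
        rw [e y (by omega), h7 _ (by omega)]
        exact ⟨hyQ, Or.inr rfl⟩
    obtain ⟨z1, k1, _, k2⟩ := hS (X b) n (hXne b) fun x hx => (hXlen b x hx).le
    obtain ⟨z2, k3, _, k4⟩ := hS (X b') n (hXne b') fun x hx => (hXlen b' x hx).le
    rw [g1, hz1, Option.some.injEq] at k1
    rw [g2, hz1, Option.some.injEq] at k3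
    rw [← k1] at k2
    rw [← k3, ← hzz, k2] at k4
    obtain ⟨x, hx, hx2⟩ := k4.2 ⟨x', (hXmem b' i (b' i)).2 rfl, (htest x' hx'l).2 rfl⟩
    have h9 := (htest x (hXlen b x hx)).1 hx2
    rw [h9, hx', hXmem] at hx
    exact hi hx
  · push Not at hgood
    obtain ⟨b, hb0⟩ := hgood
    obtain ⟨B', N', h1, h2, h3, h4, h5, h6, h7, h8⟩ := ext b b []
    refine ⟨B', N', h1, fun z hz => h5 z (by omega), h6, fun B'' hB'' => ?_⟩
    rintro ⟨S, hS⟩
    obtain ⟨g1, _⟩ := h8 B'' hB''
    obtain ⟨z1, k1, k2, _⟩ := hS (X b) n (hXne b) fun x hx => (hXlen b x hx).le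
    rw [g1] at k1
    exact absurd k2 (not_le.2 (hb0 z1 k1))

end Pool.Agent.H593R3.DST
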