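import Pool.Agent.H593R3.DST.B2

/-!
# The covering argument of Fortnow and Santhanam
-/

namespace Pool.Agent.H593R3.DST

open Finset

/-- Some output is produced by tuples that contain more than half of the strings. -/
theorem exists_half (m k : ℕ) (hm : k + 1 < m) (g : (Fin m → List Bool) → List Bool)
    (V : Finset (List Bool)) (hV : V.Nonempty)
    (hg : ∀ t : Fin m → List Bool, (∀ i, t i ∈ V) → (g t).length ≤ k) :
    ∃ (z : List Bool) (U : Finset (List Bool)), U ⊆ V ∧ V.card < 2 * U.card ∧
      (∀ x ∈ U, ∃ t : Fin m → List Bool, (∀ i, t i ∈ V) ∧ (∃ i, t i = x) ∧ g t = z) := by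
  classical
  set P : Finset (Fin m → List Bool) := Fintype.piFinset fun _ => V with hP
  set Z : Finset (List Bool) := P.image g with hZ
  have hZlen : ∀ z ∈ Z, z.length ≤ k := by
    intro z hz
    rw [hZ, mem_image] at hz
    obtain ⟨t, ht, rfl⟩ := hz
    exact hg t (Fintype.mem_piFinset.1 ht)
  have hZc : Z.card ≤ 2 ^ (k + 1) := by
    have h1 : Fintype.card Z ≤ Fintype.card (List.Vector Bool (k + 1)) := by
      refine Fintype.card_le_of_injective (fun z => (⟨padTo k z.1, padTo_length
        (hZlen z.1 z.2)⟩ : List.Vector Bool (k + 1))) ?_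
      intro z z' h
      have h2 : padTo k z.1 = padTo k z'.1 := congrArg Subtype.val h
      exact Subtype.ext (Pool.Agent.H620R2.Gauge.CC.rep_inj _ _ _ _ h2).2
    rwa [card_vector, Fintype.card_bool, Fintype.card_coe] at h1
  have hZc2 : Z.card < 2 ^ m := hZc.trans_lt (Nat.pow_lt_pow_right (by norm_num) hm)
  set U : List Bool → Finset (List Bool) := fun z => V.filter fun x =>
    ∃ t : Fin m → List Bool, (∀ i, t i ∈ V) ∧ (∃ i, t i = x) ∧ g t = z with hU
  by_contra hcon
  push Not at hcon
  have hUz : ∀ z, 2 * (U z).card ≤ V.card := by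
    intro z
    by_contra h
    obtain ⟨x, hx, hx2⟩ := hcon z (U z) (filter_subset _ _) (not_le.1 h)
    obtain ⟨t, h1, ⟨i, h2⟩, h3⟩ := (mem_filter.1 hx).2
    exact hx2 t h1 ⟨i, h2⟩ h3
  have hfib : ∀ z, (P.filter fun t => g t = z).card ≤ (U z).card ^ m := by
    intro z
    have h1 : (P.filter fun t => g t = z) ⊆ Fintype.piFinset fun _ : Fin m => U z := by
      intro t ht
      rw [mem_filter] at ht
      rw [Fintype.mem_piFinset]
      intro i
      have h2 := Fintype.mem_piFinset.1 ht.1
      exact mem_filter.2 ⟨h2 i, t, h2, ⟨i, rfl⟩, ht.2⟩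
    refine (card_le_card h1).trans ?_
    rw [Fintype.card_piFinset]
    simp
  have hcard : V.card ^ m = ∑ z ∈ Z, (P.filter fun t => g t = z).card := by
    rw [← card_eq_sum_card_fiberwise (f := g) (t := Z) (fun t ht => mem_image_of_mem g ht), hP,
      Fintype.card_piFinset]
    simp
  have h1 : 2 ^ m * V.card ^ m ≤ Z.card * V.card ^ m := by
    rw [hcard, mul_sum]
    calc ∑ z ∈ Z, 2 ^ m * (P.filter fun t => g t = z).card
        ≤ ∑ _z ∈ Z, V.card ^ m := by
          apply sum_le_sum
          intro z _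
          calc 2 ^ m * (P.filter fun t => g t = z).card ≤ 2 ^ m * (U z).card ^ m :=
                Nat.mul_le_mul_left _ (hfib z)
            _ = (2 * (U z).card) ^ m := (mul_pow _ _ _).symm
            _ ≤ V.card ^ m := Nat.pow_le_pow_left (hUz z) m
      _ = Z.card * V.card ^ m := by rw [sum_const, smul_eq_mul]
      _ = Z.card * ∑ z ∈ Z, (P.filter fun t => g t = z).card := by rw [hcard]
  have h2 : 0 < V.card ^ m := Nat.pow_pos (card_pos.2 hV)
  have h3 := Nat.le_of_mul_le_mul_right h1 h2
  omega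

/-- Few outputs cover all strings. -/
theorem exists_cover (m k : ℕ) (hm : k + 1 < m) (g : (Fin m → List Bool) → List Bool) :
    ∀ (j : ℕ) (V : Finset (List Bool)), V.card < 2 ^ j →
      (∀ t : Fin m → List Bool, (∀ i, t i ∈ V) → (g t).length ≤ k) →
      ∃ T : List (List Bool), T.length ≤ j ∧
        (∀ z ∈ T, ∃ t : Fin m → List Bool, (∀ i, t i ∈ V) ∧ g t = z) ∧
        ∀ x ∈ V, ∃ t : Fin m → List Bool, (∀ i, t i ∈ V) ∧ (∃ i, t i = x) ∧ g t ∈ T := by
  classical
  intro j
  induction j with
  | zero =>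
    intro V hV _
    have : V = ∅ := card_eq_zero.1 (by simpa using hV)
    subst this
    exact ⟨[], le_rfl, by simp, by simp⟩
  | succ j ih =>
    intro V hV hg
    rcases V.eq_empty_or_nonempty with h | h
    · subst h
      exact ⟨[], Nat.zero_le _, by simp, by simp⟩
    · obtain ⟨z, U, h1, h2, h3⟩ := exists_half m k hm g V h hg
      have h4 : (V \ U).card + U.card = V.card := card_sdiff_add_card_eq_card h1
      obtain ⟨T, h5, h6, h7⟩ := ih (V \ U) (by rw [pow_succ] at hV; omega)
        (fun t ht => hg t fun i => (mem_sdiff.1 (ht i)).1)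
      have hUne : U.Nonempty := by
        rw [← card_pos]
        omega
      refine ⟨z :: T, by rw [List.length_cons]; omega, ?_, ?_⟩
      · intro y hy
        rcases List.mem_cons.1 hy with rfl | hy
        · obtain ⟨x, hx⟩ := hUne
          obtain ⟨t, k1, _, k3⟩ := h3 x hx
          exact ⟨t, k1, k3⟩
        · obtain ⟨t, k1, k2⟩ := h6 y hy
          exact ⟨t, fun i => (mem_sdiff.1 (k1 i)).1, k2⟩
      · intro x hx
        by_cases hxU : x ∈ U
        · obtain ⟨t, k1, k2, k3⟩ := h3 x hxU
          exact ⟨t, k1, k2, by rw [k3]; exact List.mem_cons_self⟩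
        · obtain ⟨t, k1, k2, k3⟩ := h7 x (mem_sdiff.2 ⟨hx, hxU⟩)
          exact ⟨t, fun i => (mem_sdiff.1 (k1 i)).1, k2, List.mem_cons_of_mem _ k3⟩

end Pool.Agent.H593R3.DST
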