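import Pool.Agent.H877R3.Join.Defs

/-!
# Distillation and compression relative to an oracle
-/

namespace Pool.Agent.H593R3.DST

open Pool.Agent.NPC Pool.Agent.H620R2.Gauge Pool.Agent.H877R3.Join

/-- A finite sequence of strings, written as one string. -/
def enc : List (List Bool) → List Bool
  | [] => []
  | x :: xs => pairBits x (enc xs)

/-- `R` is `NP`-hard relative to `A`, under many-one reductions computable in polynomial time
relative to `A`. -/
def NPHardRel (A : Oracle) (R : Set (List Bool)) : Prop :=
  ∀ L, IsNP A L → ∃ f : List Bool → List Bool, IsFP A f ∧ ∀ x, x ∈ L ↔ f x ∈ R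

/-- `F` is, relative to `A`, an OR-compression of `R` into `S`: it is computable in polynomial
time relative to `A`, it maps a nonempty finite sequence of strings of length at most `n` to a
string of length at most `q n`, however long the sequence is, and this string is in `S` if and
only if at least one string of the sequence is in `R`. -/
def ORCompression (A : Oracle) (R S : Set (List Bool)) : Prop :=
  ∃ (F : List Bool → List Bool) (q : Polynomial ℕ), IsFP A F ∧
    ∀ (xs : List (List Bool)) (n : ℕ), xs ≠ [] → (∀ x ∈ xs, x.length ≤ n) →
      (F (enc xs)).length ≤ q.eval n ∧ (F (enc xs) ∈ S ↔ ∃ x ∈ xs, x ∈ R)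

/-- The same with AND: the string is in `S` if and only if all strings of the sequence are in
`R`. -/
def ANDCompression (A : Oracle) (R S : Set (List Bool)) : Prop :=
  ∃ (F : List Bool → List Bool) (q : Polynomial ℕ), IsFP A F ∧
    ∀ (xs : List (List Bool)) (n : ℕ), xs ≠ [] → (∀ x ∈ xs, x.length ≤ n) →
      (F (enc xs)).length ≤ q.eval n ∧ (F (enc xs) ∈ S ↔ ∀ x ∈ xs, x ∈ R)

open Classical in
/-- The bit that tells whether `x` is in `R`. -/
noncomputable def memBit (R : Set (List Bool)) (x : List Bool) : Bool := decide (x ∈ R)

/-- The same with an arbitrary Boolean combination of arbitrarily many questions: the string is in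
`S` if and only if `h` maps the sequence of the answers to the questions whether the strings are in
`R` to `[true]`. -/
def CombCompression (A : Oracle) (h : List Bool → List Bool) (R S : Set (List Bool)) : Prop :=
  ∃ (F : List Bool → List Bool) (q : Polynomial ℕ), IsFP A F ∧
    ∀ (xs : List (List Bool)) (n : ℕ), xs ≠ [] → (∀ x ∈ xs, x.length ≤ n) →
      (F (enc xs)).length ≤ q.eval n ∧ (F (enc xs) ∈ S ↔ h (xs.map (memBit R)) = [true])

end Pool.Agent.H593R3.DST
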