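import Pool.Agent.H593R3.DST.Cover
import Pool.Agent.H593R3.DST.B3
import Pool.Agent.H620R2.Gauge2.Defs
import Pool.Agent.H620R2.GaugeR.R2

/-!
# The theorem of Fortnow and Santhanam relative to an oracle
-/

namespace Pool.Agent.H593R3.DST

open Pool.Agent.NPC Pool.Agent.H622R2 Pool.Agent.H877R3.Join
open Pool.Agent.H620R2.Gauge hiding IsNP

/-- A string as a sequence of strings. -/
theorem exists_norm (A : Oracle) : ∃ G : List Bool → List Bool, IsFP A G ∧
    (∀ xs, G (enc xs) = enc xs) ∧ ∀ y, ∃ zs, G y = enc zs := by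
  set f : List Bool → List Bool := fun x => x with hf
  have hfp : IsFP A f := IsFP.of_poly Poly.id
  have hlen : ∀ (x : List Bool) (i : ℕ), ∃ (zs : List (List Bool)) (r : List Bool),
      (mstep f)^[i] (pairBits [] x) = pairBits (enc zs) r ∧
      r.length ≤ x.length ∧ (enc zs).length ≤ i * (2 * x.length + 1) := by
    intro x i
    induction i with
    | zero => exact ⟨[], x, rfl, le_rfl, by simp [enc]⟩
    | succ i ih =>
      obtain ⟨zs, r, h1, h2, h3⟩ := ih
      rw [Function.iterate_succ_apply', h1]
      have e3 : (i + 1) * (2 * x.length + 1) = i * (2 * x.length + 1) + (2 * x.length + 1) := by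
        ring
      by_cases hr : r = []
      · refine ⟨zs, r, ?_, h2, by omega⟩
        unfold mstep
        rw [unpair_pairBits, if_pos hr]
      · have e4 : enc zs ++ pairBits (unpair r).1 [] = enc (zs ++ [(unpair r).1]) := by
          rw [enc_append]
          rfl
        refine ⟨zs ++ [(unpair r).1], (unpair r).2, ?_, ?_, ?_⟩
        · unfold mstep
          rw [unpair_pairBits, if_neg hr, ← e4]
        · have := unpair_len r
          omega
        · have h4 := unpair_len r
          rw [← e4, List.length_append, Pool.Agent.H620R2.Gauge.length_pairBits, List.length_nil]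
          omega
  have hS := IsFP.mstep hfp
  have hL := IsFP.loop hS (g := fun x => pairBits [] x)
    (poly_pairBits (NPC.Poly.const _) Poly.id) Polynomial.X
    (Polynomial.C 2 * (Polynomial.X * (Polynomial.C 2 * Polynomial.X + Polynomial.C 1)) +
      Polynomial.C 1 + Polynomial.X) (by
      intro x i hi
      rw [Polynomial.eval_X] at hi
      obtain ⟨zs, r, h1, h2, h3⟩ := hlen x i
      rw [h1, Pool.Agent.H620R2.Gauge.length_pairBits]
      simp only [Polynomial.eval_add, Polynomial.eval_mul, Polynomial.eval_C, Polynomial.eval_X]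
      have h4 : i * (2 * x.length + 1) ≤ x.length * (2 * x.length + 1) :=
        Nat.mul_le_mul_right _ hi
      omega)
  have hR := IsFP.comp (IsFP.of_poly (F := fun s => (unpair s).1) (Poly.fst poly_unpair)) hL
  refine ⟨_, hR, fun xs => ?_, fun y => ?_⟩
  · have h1 := mstep_iter f (Polynomial.eval (enc xs).length Polynomial.X) [] xs
      (by rw [Polynomial.eval_X]; exact length_le_enc xs)
    simp only [enc, List.nil_append] at h1
    change (unpair ((mstep f)^[Polynomial.eval (enc xs).length Polynomial.X]
      (pairBits [] (enc xs)))).1 = enc xs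
    rw [h1, unpair_pairBits, hf]
    simp
  · obtain ⟨zs, r, h1, _⟩ := hlen y (Polynomial.eval y.length Polynomial.X)
    exact ⟨zs, by simp only [h1, unpair_pairBits]⟩

/-- compressions and reductions -/
theorem orCompression_of_reduction {O : Oracle} {f : List Bool → List Bool} (hf : IsFP O f)
    {L R S : Set (List Bool)} (hL : ∀ x, x ∈ L ↔ f x ∈ R) (h : ORCompression O R S) :
    ORCompression O L S := by
  obtain ⟨F, q, hF, h1⟩ := h
  obtain ⟨G, hG1, hG2⟩ := exists_map hf
  have hf' := hf
  obtain ⟨M0, hM0⟩ := hf'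
  obtain ⟨c, hc⟩ := M0.out_length
  refine ⟨fun y => F (G y), q.comp c, hF.comp hG1, fun xs n h2 h3 => ?_⟩
  obtain ⟨h4, h5⟩ := h1 (xs.map f) (c.eval n) (by simpa using h2) (by
    intro y hy
    obtain ⟨x, hx, rfl⟩ := List.mem_map.1 hy
    exact (hc O x _ (hM0 x)).trans (eval_mono _ (h3 x hx)))
  change (F (G (enc xs))).length ≤ (q.comp c).eval n ∧ (F (G (enc xs)) ∈ S ↔ ∃ x ∈ xs, x ∈ L)
  rw [hG2, Polynomial.eval_comp]
  refine ⟨h4, ?_⟩
  rw [h5]
  constructor
  · rintro ⟨y, hy, hyL⟩
    obtain ⟨x, hx, rfl⟩ := List.mem_map.1 hy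
    exact ⟨x, hx, (hL x).2 hyL⟩
  · rintro ⟨x, hx, hxL⟩
    exact ⟨f x, List.mem_map_of_mem hx, (hL x).1 hxL⟩

/-- the list coded by the advice -/
def dcl (s : List Bool) : List (List Bool) := (unbits (List (List Bool)) s).getD []

theorem dcl_bits (s : List (List Bool)) : dcl (bits s) = s := by
  unfold dcl
  rw [unbits_bits]
  rfl

theorem poly_dcl : Poly dcl :=
  (Poly.optCases (o := unbits (List (List Bool))) (g := fun _ => ([] : List (List Bool)))
    (h := fun _ b => b) poly_unbits (NPC.Poly.const _) (Poly.snd Poly.id)).congr fun s => by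
      unfold dcl
      cases unbits (List (List Bool)) s <;> rfl

/-- membership in a list, as a bit -/
def memB (z : List Bool) (l : List (List Bool)) : Bool := l.any fun y => decide (y = z)

theorem memB_iff (z : List Bool) (l : List (List Bool)) : memB z l = true ↔ z ∈ l := by
  unfold memB
  rw [List.any_eq_true]
  constructor
  · rintro ⟨y, hy, h⟩
    rw [decide_eq_true_iff] at h
    rwa [← h]
  · intro h
    exact ⟨z, h, decide_eq_true rfl⟩

theorem poly_memB {α : Type} [TEnc α] {z : α → List Bool} {l : α → List (List Bool)}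
    (hz : Poly z) (hl : Poly l) : Poly (fun a => memB (z a) (l a)) :=
  Poly.any (p := fun a y => decide (y = z a)) hl
    (Poly.decide_eq (Poly.snd Poly.id) (hz.comp (Poly.fst Poly.id)))

theorem sz_le (k : ℕ) : ∀ l : List (List Bool), (∀ z ∈ l, z.length ≤ k) →
    sz l ≤ l.length * (4 * k + 2) + 1 := by
  intro l
  induction l with
  | nil => intro _; simp
  | cons a l ih =>
    intro h
    have h1 := ih fun z hz => h z (List.mem_cons_of_mem _ hz)
    have h2 := h a List.mem_cons_self
    have h3 := sz_listBool_le a
    have e : (l.length + 1) * (4 * k + 2) = l.length * (4 * k + 2) + (4 * k + 2) := by ring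
    rw [sz_list_cons, List.length_cons]
    omega

/-- **Fortnow and Santhanam**, relative to an oracle. -/
theorem fs {A : Oracle} {L S : Set (List Bool)} (h : ORCompression A L S) :
    WithAdvice (Pool.Agent.H620R2.Gauge.IsNP A) Lᶜ := by
  classical
  obtain ⟨G, q, hG, hq⟩ := h
  obtain ⟨Nr, hNr1, hNr2, hNr3⟩ := exists_norm A
  -- the covering sets
  have hcov : ∀ n : ℕ, ∃ T : List (List Bool), T.length ≤ n + 1 ∧
      (∀ z ∈ T, z.length ≤ q.eval n ∧ z ∉ S) ∧
      ∀ x : List Bool, x.length = n → x ∉ L → ∃ us vs : List (List Bool),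
        (us.length + vs.length ≤ q.eval n + 2) ∧ (∀ u ∈ us, u.length ≤ n) ∧
        (∀ v ∈ vs, v.length ≤ n) ∧ G (enc (us ++ x :: vs)) ∈ T := by
    intro n
    set V : Finset (List Bool) := ((Finset.univ : Finset (List.Vector Bool n)).image
      (fun v => v.1)).filter (fun x => x ∉ L) with hV
    have hVm : ∀ x, x ∈ V ↔ x.length = n ∧ x ∉ L := by
      intro x
      rw [hV, Finset.mem_filter, Finset.mem_image]
      constructor
      · rintro ⟨⟨v, _, rfl⟩, h2⟩
        exact ⟨v.2, h2⟩
      · rintro ⟨h1, h2⟩
        exact ⟨⟨⟨x, h1⟩, Finset.mem_univ _, rfl⟩, h2⟩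
    have hVc : V.card < 2 ^ (n + 1) := by
      have h1 : V.card ≤ 2 ^ n := by
        refine (Finset.card_filter_le _ _).trans (Finset.card_image_le.trans ?_)
        rw [Finset.card_univ, card_vector, Fintype.card_bool]
      have h2 : 2 ^ n < 2 ^ (n + 1) := Nat.pow_lt_pow_right (by norm_num) (Nat.lt_succ_self n)
      omega
    set m : ℕ := q.eval n + 2 with hm
    set g : (Fin m → List Bool) → List Bool := fun t => G (enc (List.ofFn t)) with hg
    have hgt : ∀ t : Fin m → List Bool, (∀ i, t i ∈ V) →
        (g t).length ≤ q.eval n ∧ g t ∉ S := by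
      intro t ht
      have h1 : List.ofFn t ≠ [] := by
        intro h
        have := congrArg List.length h
        rw [List.length_ofFn, List.length_nil] at this
        omega
      obtain ⟨h2, h3⟩ := hq (List.ofFn t) n h1 (by
        intro x hx
        obtain ⟨i, rfl⟩ := (List.mem_ofFn' t x).1 hx
        exact ((hVm _).1 (ht i)).1.le)
      refine ⟨h2, fun h4 => ?_⟩
      obtain ⟨x, hx, hxL⟩ := h3.1 h4
      obtain ⟨i, rfl⟩ := (List.mem_ofFn' t x).1 hx
      exact ((hVm _).1 (ht i)).2 hxL
    obtain ⟨T, h1, h2, h3⟩ := exists_cover m (q.eval n) (by omega) g (n + 1) V hVc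
      fun t ht => (hgt t ht).1
    refine ⟨T, h1, fun z hz => ?_, fun x hx hxL => ?_⟩
    · obtain ⟨t, ht, rfl⟩ := h2 z hz
      exact hgt t ht
    · obtain ⟨t, ht, ⟨i, hi⟩, hT⟩ := h3 x ((hVm x).2 ⟨hx, hxL⟩)
      have hmem : x ∈ List.ofFn t := (List.mem_ofFn' t x).2 ⟨i, hi⟩
      have hall : ∀ y ∈ List.ofFn t, y.length ≤ n := by
        intro y hy
        obtain ⟨i, rfl⟩ := (List.mem_ofFn' t y).1 hy
        exact ((hVm _).1 (ht i)).1.le
      obtain ⟨us, vs, huv⟩ := List.append_of_mem hmem
      have hlen := congrArg List.length huv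
      rw [List.length_ofFn, List.length_append, List.length_cons] at hlen
      refine ⟨us, vs, by omega, fun u hu => hall u ?_, fun v hv => hall v ?_, ?_⟩
      · rw [huv]
        exact List.mem_append_left _ hu
      · rw [huv]
        exact List.mem_append_right _ (List.mem_cons_of_mem _ hv)
      · rw [← huv]
        exact hT
  choose T hT1 hT2 hT3 using hcov
  -- the verifier
  have hu1 : IsFP A (fun Y => Nr (unpair (unpair Y).1).1) :=
    hNr1.precomp (Poly.fst (poly_unpair.comp (Poly.fst poly_unpair)))
  have hu2 : IsFP A (fun Y => Nr (unpair (unpair Y).1).2) :=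
    hNr1.precomp (Poly.snd (poly_unpair.comp (Poly.fst poly_unpair)))
  have hP := hu1.pair hu2
  have hy : Poly (fun t : List Bool × List Bool => unpair (unpair t.1).2) :=
    poly_unpair.comp (Poly.snd (poly_unpair.comp (Poly.fst Poly.id)))
  have hy' : Poly (fun t : List Bool × List Bool × List Bool => unpair (unpair t.1).2) :=
    poly_unpair.comp (Poly.snd (poly_unpair.comp (Poly.fst Poly.id)))
  have hp : Poly (fun t : List Bool × List Bool => unpair t.2) :=
    poly_unpair.comp (Poly.snd Poly.id)
  have hφ : Poly (fun t : List Bool × List Bool =>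
      (unpair t.2).1 ++ pairBits (unpair (unpair t.1).2).1 (unpair t.2).2) :=
    Poly.append (Poly.fst hp) (poly_pairBits (Poly.fst hy) (Poly.snd hp))
  have hψ : Poly (fun t : List Bool × List Bool × List Bool =>
      if memB t.2.2 (dcl (unpair (unpair t.1).2).2) = true then [true] else ([] : List Bool)) :=
    Poly.ite (Poly.decide_bool (poly_memB (Poly.snd (Poly.snd Poly.id))
      (poly_dcl.comp (Poly.snd hy'))))
      (NPC.Poly.const _) (NPC.Poly.const _)
  have hV := IsFP.seq hP hG hφ hψ
  set p : Polynomial ℕ := Polynomial.C 2 * ((q + Polynomial.C 2) * (Polynomial.C 2 *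
    Polynomial.X + Polynomial.C 1)) + Polynomial.C 1 + (q + Polynomial.C 2) * (Polynomial.C 2 *
    Polynomial.X + Polynomial.C 1) with hpd
  have hpe : ∀ n, p.eval n = 2 * ((q.eval n + 2) * (2 * n + 1)) + 1 +
      (q.eval n + 2) * (2 * n + 1) := by
    intro n
    rw [hpd]
    simp only [Polynomial.eval_add, Polynomial.eval_mul, Polynomial.eval_C, Polynomial.eval_X]
  have hbits : ∀ n, (bits (T n)).length = sz (T n) := fun n => bits_length _
  refine ⟨{y | ∃ w : List Bool, w.length ≤ p.eval y.length ∧ (fun Y => (fun t : List Bool ×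
    List Bool × List Bool => if memB t.2.2 (dcl (unpair (unpair t.1).2).2) = true then [true] else
      ([] : List Bool)) (Y, pairBits (Nr (unpair (unpair Y).1).1) (Nr (unpair (unpair Y).1).2),
      G ((fun t : List Bool × List Bool => (unpair t.2).1 ++ pairBits (unpair (unpair t.1).2).1
        (unpair t.2).2) (Y, pairBits (Nr (unpair (unpair Y).1).1)
          (Nr (unpair (unpair Y).1).2))))) (pairBits w y) = [true]},
    fun n => bits (T n), (Polynomial.X + Polynomial.C 1) * (Polynomial.C 4 * q +
      Polynomial.C 2) + Polynomial.C 1, ⟨_, p, hV, fun x => Iff.rfl⟩, fun n => ?_, fun x => ?_⟩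
  · have h1 := sz_le (q.eval n) (T n) fun z hz => (hT2 n z hz).1
    have h2 := Nat.mul_le_mul_right (4 * q.eval n + 2) (hT1 n)
    rw [hbits]
    simp only [Polynomial.eval_add, Polynomial.eval_mul, Polynomial.eval_C, Polynomial.eval_X]
    omega
  · have key : ∀ w : List Bool, (fun Y => (fun t : List Bool ×
        List Bool × List Bool => if memB t.2.2 (dcl (unpair (unpair t.1).2).2) = true then [true] else
        ([] : List Bool)) (Y, pairBits (Nr (unpair (unpair Y).1).1) (Nr (unpair (unpair Y).1).2),
        G ((fun t : List Bool × List Bool => (unpair t.2).1 ++ pairBits (unpair (unpair t.1).2).1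
          (unpair t.2).2) (Y, pairBits (Nr (unpair (unpair Y).1).1)
            (Nr (unpair (unpair Y).1).2))))) (pairBits w (pairBits x (bits (T x.length)))) =
          [true] ↔ G (Nr (unpair w).1 ++ pairBits x (Nr (unpair w).2)) ∈ T x.length := by
      intro w
      simp only [unpair_pairBits, dcl_bits]
      rw [← memB_iff]
      split_ifs with h
      · simp [h]
      · simp [h]
    constructor
    · intro hx
      obtain ⟨us, vs, h1, h2, h3, h4⟩ := hT3 x.length x rfl hx
      refine ⟨pairBits (enc us) (enc vs), ?_, (key _).2 ?_⟩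
      · have h5 := length_enc_le x.length us h2
        have h6 := length_enc_le x.length vs h3
        have h7 : us.length * (2 * x.length + 1) ≤ (q.eval x.length + 2) * (2 * x.length + 1) :=
          Nat.mul_le_mul_right _ (by omega)
        have h8 : vs.length * (2 * x.length + 1) ≤ (q.eval x.length + 2) * (2 * x.length + 1) :=
          Nat.mul_le_mul_right _ (by omega)
        have h9 := hpe x.length
        have h10 : p.eval x.length ≤
            p.eval (pairBits x ((fun n => bits (T n)) x.length)).length := by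
          apply eval_mono
          rw [Pool.Agent.H620R2.Gauge.length_pairBits]
          omega
        rw [Pool.Agent.H620R2.Gauge.length_pairBits]
        omega
      · rw [unpair_pairBits, hNr2, hNr2]
        have e : enc us ++ pairBits x (enc vs) = enc (us ++ x :: vs) := by
          rw [enc_append]
          rfl
        rw [e]
        exact h4
    · rintro ⟨w, _, hw⟩ hx
      have h1 := (key w).1 hw
      obtain ⟨us, hus⟩ := hNr3 (unpair w).1
      obtain ⟨vs, hvs⟩ := hNr3 (unpair w).2
      rw [hus, hvs] at h1
      have e : enc us ++ pairBits x (enc vs) = enc (us ++ x :: vs) := by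
        rw [enc_append]
        rfl
      rw [e] at h1
      have h2 := (hT2 x.length _ h1).2
      obtain ⟨n, hn⟩ : ∃ n : ℕ, ∀ y ∈ us ++ x :: vs, y.length ≤ n :=
        ⟨(enc (us ++ x :: vs)).length, fun y hy => by
          obtain ⟨a, b, hab⟩ := List.append_of_mem hy
          rw [hab, enc_append, enc, List.length_append,
            Pool.Agent.H620R2.Gauge.length_pairBits]
          omega⟩
      exact h2 ((hq (us ++ x :: vs) n (by simp) hn).2.2 ⟨x, by simp, hx⟩)

end Pool.Agent.H593R3.DST
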