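import Pool.Agent.H593R3.DST.FS
import Pool.Agent.H593R3.DST.A5
import Pool.Agent.H620R2.GaugeX.KeyX
import Pool.Agent.H620R2.Gauge.NonNull

/-!
# The gauge threshold for distillations
-/

namespace Pool.Agent.H593R3.DST

open Pool.Agent.NPC Pool.Agent.H622R2 Pool.Agent.H877R3.Join
open Pool.Agent.H620R2.Gauge hiding IsNP

theorem isNP_join {A : Oracle} {L : Set (List Bool)} (h : Pool.Agent.H620R2.Gauge.IsNP A L) :
    IsNP A L := by
  obtain ⟨V, p, hV, hL⟩ := h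
  refine ⟨fun y => V (pairBits (unpair y).2 (unpair y).1), p,
    hV.precomp (poly_pairBits (Poly.snd poly_unpair) (Poly.fst poly_unpair)), fun x => ?_⟩
  rw [hL x]
  simp only [unpair_pairBits]

theorem isPSPACE_of_isNP {A : Oracle} {L : Set (List Bool)} (h : IsNP A L) : IsPSPACE A L := by
  obtain ⟨V, p, hV, hL⟩ := h
  apply IsPH.isPSPACE
  refine ⟨fun y => V (pairBits (unpair y).2 (unpair y).1), p, 1,
    hV.precomp (poly_pairBits (Poly.snd poly_unpair) (Poly.fst poly_unpair)), fun x => ?_⟩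
  rw [hL x]
  simp only [Quant, unpair_pairBits]

/-- the trivial complete language -/
def R0 : Set (List Bool) := {x | x = [true]}

theorem R0_isP (A : Oracle) : IsP A R0 :=
  ⟨fun x => x, IsFP.of_poly Poly.id, fun _ => Iff.rfl⟩

theorem R0_isNP (A : Oracle) : IsNP A R0 := by
  refine ⟨fun y => (unpair y).1, 0, IsFP.of_poly (Poly.fst poly_unpair), fun x => ?_⟩
  simp only [unpair_pairBits]
  exact ⟨fun h => ⟨[], Nat.zero_le _, h⟩, fun ⟨_, _, h⟩ => h⟩

theorem R0_hard {A : Oracle} (h : ∀ L, IsNP A L → IsP A L) : NPHardRel A R0 := by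
  intro L hL
  obtain ⟨V, hV, hVL⟩ := h L hL
  exact ⟨V, hV, hVL⟩

theorem R0_or (A : Oracle) : ORCompression A R0 R0 := by
  obtain ⟨V, hV, h1, h2⟩ := isP_norm (R0_isP A)
  obtain ⟨G, hG1, hG2⟩ := exists_map hV
  have h3 : Poly (fun z : List Bool => if true ∈ z then [true] else ([] : List Bool)) :=
    Poly.ite (Poly.decide_mem (NPC.Poly.const _) Poly.id) (NPC.Poly.const _) (NPC.Poly.const _)
  refine ⟨_, Polynomial.C 1, (IsFP.of_poly h3).comp hG1, fun xs n _ _ => ?_⟩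
  change (if true ∈ G (enc xs) then [true] else ([] : List Bool)).length ≤ _ ∧
    ((if true ∈ G (enc xs) then [true] else ([] : List Bool)) ∈ R0 ↔ _)
  rw [hG2, ← mem_enc_iff V R0 h1 h2 xs, Polynomial.eval_C]
  split_ifs with h5
  · exact ⟨by simp, by simp [h5, R0]⟩
  · exact ⟨by simp, by simp [h5, R0]⟩

theorem gauge (f : ℕ → ℝ) (O : Set Oracle)
    (h1 : ∀ A : Oracle, (∀ L, IsPSPACE A L → Reduces L {x | A x = true}) → A ∈ O)
    (h2 : ∀ A ∈ O, ∃ R S, NPHardRel A R ∧ ORCompression A R S) :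
    Null f O ↔
      ∀ ε : ℝ, 0 < ε → ∃ᶠ N : ℕ in Filter.atTop, f N ≤ 2 ^ (Real.logb 2 N) ^ ε := by
  constructor
  · intro hn ε hε
    by_contra hcon
    rw [Filter.not_frequently] at hcon
    exact not_null f ε hε (hcon.mono fun N h => not_le.1 h) O h1 hn
  · intro hf
    have hN : Null f {A : Oracle | WithAdvice (Pool.Agent.H620R2.Gauge.IsNP A) (hitLang A)ᶜ} :=
      nullN hf _ fun A hA => hA
    refine hN.mono fun A hA => ?_
    obtain ⟨R, S, hR, hC⟩ := h2 A hA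
    obtain ⟨g, hg, hgR⟩ := hR _ (isNP_join (hitLang_np A))
    exact fs (orCompression_of_reduction hg hgR hC)

theorem gauge_main (f : ℕ → ℝ) :
    (∀ O : Set Oracle, (∀ A : Oracle, (∀ L, IsPSPACE A L → Reduces L {x | A x = true}) → A ∈ O) →
      (∀ A ∈ O, ∃ R S, NPHardRel A R ∧ ORCompression A R S) →
      (Null f O ↔
        ∀ ε : ℝ, 0 < ε → ∃ᶠ N : ℕ in Filter.atTop, f N ≤ 2 ^ (Real.logb 2 N) ^ ε)) ∧
    (Null f {A : Oracle | ∃ R S, NPHardRel A R ∧ ORCompression A R S} ↔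
      ∀ ε : ℝ, 0 < ε → ∃ᶠ N : ℕ in Filter.atTop, f N ≤ 2 ^ (Real.logb 2 N) ^ ε) ∧
    (Null f {A : Oracle | ∃ R, IsNP A R ∧ NPHardRel A R ∧ ORCompression A R R} ↔
      ∀ ε : ℝ, 0 < ε → ∃ᶠ N : ℕ in Filter.atTop, f N ≤ 2 ^ (Real.logb 2 N) ^ ε) := by
  have h0 : ∀ A : Oracle, (∀ L, IsPSPACE A L → Reduces L {x | A x = true}) →
      NPHardRel A R0 := fun A hA =>
    R0_hard fun L hL => isP_of_reduces (hA L (isPSPACE_of_isNP hL))
  refine ⟨gauge f, gauge f _ (fun A hA => ⟨R0, R0, h0 A hA, R0_or A⟩) fun A hA => hA,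
    gauge f _ (fun A hA => ⟨R0, R0_isNP A, h0 A hA, R0_or A⟩) ?_⟩
  rintro A ⟨R, _, h1, h2⟩
  exact ⟨R, R, h1, h2⟩

end Pool.Agent.H593R3.DST
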